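import Pool.Agent.Q264.CM.Two

/-!
# Heights of CM types: definitions and the basic vanishing theorem

The definitions and lemmas of this file are those of helper264's hand-in
`MP_a2beea_nt.RationalConstituents`.
-/

open scoped Classical
open Finset

set_option linter.unusedSectionVars false

namespace Pool.Agent.Q271.CM

section defs

variable {k K : Type} [Field k] [Field K] [Algebra k K] [FiniteDimensional k K]

/-- The set `H_E` of embeddings of the subfield `E` (all of them have their image in the Galois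
field `K`). -/
abbrev Emb (E : IntermediateField k K) : Type := E →ₐ[k] K

/-- `g ∘ ψ` for `g ∈ Gal(K/k)` and an embedding `ψ` of the subfield `E` into `K`. -/
def act (g : K ≃ₐ[k] K) {E : IntermediateField k K} (ψ : Emb E) : Emb E :=
  (g : K →ₐ[k] K).comp ψ

/-- A subfield `E` of the Galois CM field `K` is a CM field iff complex conjugation `c` is not
trivial on `E`. -/
def IsCMSub (c : K ≃ₐ[k] K) (E : IntermediateField k K) : Prop := ∃ x ∈ E, c x ≠ x

/-- CM types: exactly one of `ψ`, `c ∘ ψ` belongs to `Φ`. -/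
def IsType (c : K ≃ₐ[k] K) {E : IntermediateField k K} (Φ : Finset (Emb E)) : Prop :=
  ∀ ψ, ψ ∈ Φ ↔ act c ψ ∉ Φ

/-- Colmez's class function `a⁰_{E,ψ,Φ}` on `Gal(K/k)`. -/
noncomputable def a0 (E : IntermediateField k K) (ψ : Emb E) (Φ : Finset (Emb E))
    (g : K ≃ₐ[k] K) : ℚ :=
  (Nat.card {η : K ≃ₐ[k] K // act (η⁻¹ * g * η) ψ ∈ Φ} : ℚ) / Nat.card (K ≃ₐ[k] K)

/-- `E` is an abelian extension of `k`. -/
def IsAbelianExt (E : IntermediateField k K) : Prop :=
  IsGalois k E ∧ ∀ σ τ : E ≃ₐ[k] E, σ * τ = τ * σ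

/-- the degree `[E : k]` -/
noncomputable def degree (E : IntermediateField k K) : ℕ := Module.finrank k E

end defs

/-- What is proved about the heights `ht(E,ψ,Φ)` of the problem; `Z a = Z^∞(a^*,0)`. -/
structure Heights {K : Type} [Field K] [NumberField K] (c : K ≃ₐ[ℚ] K)
    (Z : ((K ≃ₐ[ℚ] K) → ℚ) →ₗ[ℚ] ℝ) where
  /-- the height `ht(E,ψ,Φ)` -/
  ht : (E : IntermediateField ℚ K) → Emb E → Finset (Emb E) → ℝ
  /-- Colmez: the height is a linear functional of `a⁰`. -/
  linear : ∃ L : ((K ≃ₐ[ℚ] K) → ℚ) →ₗ[ℚ] ℝ, ∀ E : IntermediateField ℚ K, IsCMSub c E →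
    ∀ Φ : Finset (Emb E), IsType c Φ → ∀ ψ : Emb E, ht E ψ Φ = L (a0 E ψ Φ)
  /-- `ht(E,ψ,Φ) + ht(E,cψ,Φ) = log 2π = Z^∞(1,0)` -/
  conj : ∀ E : IntermediateField ℚ K, IsCMSub c E → ∀ Φ : Finset (Emb E), IsType c Φ →
    ∀ ψ : Emb E, ht E ψ Φ + ht E (act c ψ) Φ = Z 1
  /-- the averaged formula (Andreatta-Goren-Howard-Madapusi Pera, Yuan-Zhang) -/
  average : ∀ E : IntermediateField ℚ K, IsCMSub c E →
    ∑ Φ : Finset (Emb E) with IsType c Φ, ∑ ψ ∈ Φ, ht E ψ Φ =
      ∑ Φ : Finset (Emb E) with IsType c Φ, ∑ ψ ∈ Φ, Z (a0 E ψ Φ)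
  /-- the abelian case (Colmez, Obus) -/
  abelian : ∀ E : IntermediateField ℚ K, IsCMSub c E → IsAbelianExt E →
    ∀ Φ : Finset (Emb E), IsType c Φ → ∀ ψ : Emb E, ht E ψ Φ = Z (a0 E ψ Φ)

/-- For every `k` prime to the order of the group, `f(g^k) - f(g)` depends only on the class of
`g` in the abelianization. -/
def RatOrAb {G : Type} [Group G] (f : G → ℚ) : Prop := ∀ k : ℕ, k.Coprime (Nat.card G) →
  ∀ g h : G, g⁻¹ * h ∈ commutator G → f (g ^ k) - f g = f (h ^ k) - f h

open Q264.CM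

section lemmas

variable {k K : Type} [Field k] [Field K] [Algebra k K] [FiniteDimensional k K]

@[instance_reducible] noncomputable def instAct (E : IntermediateField k K) :
    MulAction (K ≃ₐ[k] K) (Emb E) where
  smul g ψ := act g ψ
  one_smul := fun ψ => by ext x; rfl
  mul_smul := fun g h ψ => by ext x; rfl

attribute [local instance] instAct

lemma a0_eq (E : IntermediateField k K) (ψ : Emb E) (Φ : Finset (Emb E)) :
    a0 E ψ Φ = aa (G := K ≃ₐ[k] K) ψ Φ := rfl

lemma isType_iff (c : K ≃ₐ[k] K) {E : IntermediateField k K} (Φ : Finset (Emb E)) :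
    IsType c Φ ↔ isT c Φ := Iff.rfl

variable [IsGalois k K]

lemma exists_ext {E : IntermediateField k K} (ψ : Emb E) :
    ∃ g : K ≃ₐ[k] K, g • (E.val : Emb E) = ψ := by
  refine ⟨AlgEquiv.ofBijective (ψ.liftNormal K) (AlgHom.normal_bijective k K K _), ?_⟩
  ext x
  change (ψ.liftNormal K) (algebraMap E K x) = ψ x
  rw [AlgHom.liftNormal_commutes]; rfl

lemma stab_iff {E : IntermediateField k K} (g : K ≃ₐ[k] K) :
    g • (E.val : Emb E) = E.val ↔ g ∈ E.fixingSubgroup := by
  rw [IntermediateField.mem_fixingSubgroup_iff]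
  constructor
  · intro h x hx
    exact DFunLike.congr_fun h (⟨x, hx⟩ : E)
  · intro h
    ext x
    exact h x x.2

lemma free_of {c : K ≃ₐ[k] K} (hcen : ∀ g, c * g = g * c) {E : IntermediateField k K}
    (hE : IsCMSub c E) (ψ : Emb E) : c • ψ ≠ ψ := by
  intro h
  obtain ⟨g, rfl⟩ := exists_ext ψ
  have h1 : g • c • (E.val : Emb E) = g • (E.val : Emb E) := by
    rw [smul_smul, ← hcen, mul_smul, h]
  have h2 : c • (E.val : Emb E) = E.val := smul_left_cancel g h1
  rw [stab_iff, IntermediateField.mem_fixingSubgroup_iff] at h2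
  obtain ⟨x, hx, hx2⟩ := hE
  exact hx2 (h2 x hx)

lemma isCMSub_fixed {c : K ≃ₐ[k] K} {C : Subgroup (K ≃ₐ[k] K)} (hC : c ∉ C) :
    IsCMSub c (IntermediateField.fixedField C) := by
  by_contra h
  apply hC
  rw [← IntermediateField.fixingSubgroup_fixedField C,
    IntermediateField.mem_fixingSubgroup_iff]
  intro x hx
  by_contra h2
  exact h ⟨x, hx, h2⟩

/-- rational functionals extended to real ones -/
noncomputable def toReal {G : Type} (lam : (G → ℚ) →ₗ[ℚ] ℚ) : (G → ℚ) →ₗ[ℚ] ℝ :=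
  (Algebra.linearMap ℚ ℝ).comp lam

lemma toReal_apply {G : Type} (lam : (G → ℚ) →ₗ[ℚ] ℚ) (f : G → ℚ) :
    toReal lam f = ((lam f : ℚ) : ℝ) := rfl

lemma fix_of_abelian {E : IntermediateField k K} (hE : IsAbelianExt E)
    {g : K ≃ₐ[k] K} (hg : g ∈ commutator (K ≃ₐ[k] K)) (ψ : Emb E) : g • ψ = ψ := by
  obtain ⟨hgal, hcomm⟩ := hE
  have : Normal k E := hgal.to_normal
  have h1 : ∀ g ∈ commutator (K ≃ₐ[k] K), AlgEquiv.restrictNormalHom E g = 1 := by
    intro g hg
    have h2 : commutator (K ≃ₐ[k] K) ≤ (AlgEquiv.restrictNormalHom (F := k) (K₁ := K) E).ker := by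
      rw [commutator_def, Subgroup.commutator_le]
      intro a _ b _
      rw [MonoidHom.mem_ker, map_commutatorElement, commutatorElement_eq_one_iff_mul_comm]
      exact hcomm _ _
    exact h2 hg
  obtain ⟨s, rfl⟩ := exists_ext ψ
  have h3 : g * s = s * (s⁻¹ * g * s) := by group
  rw [smul_smul, h3, mul_smul]
  congr 1
  have h4 : s⁻¹ * g * s ∈ commutator (K ≃ₐ[k] K) := by
    have := Subgroup.Normal.conj_mem (inferInstance : (commutator (K ≃ₐ[k] K)).Normal) g hg s⁻¹
    rwa [inv_inv] at this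
  have h5 := h1 _ h4
  ext x
  have h6 := AlgEquiv.restrictNormal_commutes (s⁻¹ * g * s) E x
  have h7 : (s⁻¹ * g * s).restrictNormal E = 1 := h5
  rw [h7] at h6
  exact h6.symm

lemma index_fixing {K0 : IntermediateField k K} (h : degree K0 = 2) :
    K0.fixingSubgroup.index = 2 := by
  unfold degree at h
  have h1 := K0.fixingSubgroup.card_mul_index
  have h2 := IsGalois.card_fixingSubgroup_eq_finrank K0
  have h3 := IsGalois.card_aut_eq_finrank k K
  have h4 := Module.finrank_mul_finrank k K0 K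
  rw [h2, h3, ← h4, h, mul_comm] at h1
  exact Nat.eq_of_mul_eq_mul_right (Module.finrank_pos (R := K0) (M := K)) h1

end lemmas

section rat

attribute [local instance] instAct

variable {K : Type} [Field K] [NumberField K]
variable {c : K ≃ₐ[ℚ] K} (hc : ∀ (φ : K →+* ℂ) (x : K), φ (c x) = starRingEnd ℂ (φ x))
include hc

lemma c_sq : c * c = 1 := by
  ext x
  obtain ⟨φ⟩ := (inferInstance : Nonempty (K →+* ℂ))
  apply φ.injective
  change φ (c (c x)) = φ x
  rw [hc, hc, Complex.conj_conj]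

lemma c_cen (g : K ≃ₐ[ℚ] K) : c * g = g * c := by
  ext x
  obtain ⟨φ⟩ := (inferInstance : Nonempty (K →+* ℂ))
  apply φ.injective
  change φ (c (g x)) = φ (g (c x))
  rw [hc]
  have := hc (φ.comp (g : K →+* K)) x
  exact this.symm

lemma forward_gen [IsGalois ℚ K] (hc1 : c ≠ 1) {Z : ((K ≃ₐ[ℚ] K) → ℚ) →ₗ[ℚ] ℝ}
    (H : Heights c Z) (L : ((K ≃ₐ[ℚ] K) → ℚ) →ₗ[ℚ] ℝ)
    (hL : ∀ E : IntermediateField ℚ K, IsCMSub c E →
      ∀ Φ : Finset (Emb E), IsType c Φ → ∀ ψ : Emb E, H.ht E ψ Φ = L (a0 E ψ Φ))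
    (f : (K ≃ₐ[ℚ] K) → ℚ) (hf : ∀ x g, f (x * g * x⁻¹) = f g) (κ : ℚ)
    (hκ : ∀ g, f g + f (c * g) = 2 * κ) (hcond : RatOrAb f) : L f = Z f := by
  have hc2 := c_sq hc
  have hcen := c_cen hc
  have hD1 : (L - Z) 1 = 0 := by
    have htop : IsCMSub c (⊤ : IntermediateField ℚ K) := by
      by_contra h
      apply hc1
      ext x
      by_contra h2
      exact h ⟨x, IntermediateField.mem_top, h2⟩
    obtain ⟨Φ, hΦ⟩ := types_nonempty (X := Emb (⊤ : IntermediateField ℚ K)) hc2
      (free_of hcen htop)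
    let ψ : Emb (⊤ : IntermediateField ℚ K) := (⊤ : IntermediateField ℚ K).val
    have h1 := H.conj ⊤ htop Φ hΦ ψ
    rw [hL ⊤ htop Φ hΦ, hL ⊤ htop Φ hΦ, ← map_add] at h1
    have h2 : a0 ⊤ ψ Φ + a0 ⊤ (act c ψ) Φ = 1 := by
      ext g
      exact aa_c_smul hc2 hcen hΦ ψ g
    rw [h2] at h1
    rw [LinearMap.sub_apply, h1, sub_self]
  have key : (L - Z) f = 0 := by
    refine group_main (X := Emb (IntermediateField.fixedField (commutator (K ≃ₐ[ℚ] K))))
      hc2 hc1 hcen (L - Z) hD1 ?_ (IntermediateField.val _) exists_ext ?_ ?_ f hf κ hκ hcond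
    · intro C hC
      have hE : IsCMSub c (IntermediateField.fixedField C) := isCMSub_fixed hC
      have hfree := free_of hcen hE
      have h1 : (PP ((K ≃ₐ[ℚ] K) ⧸ C) c : (K ≃ₐ[ℚ] K) → ℚ) =
          PP (Emb (IntermediateField.fixedField C)) c := by
        refine PP_transport c (IntermediateField.val _) exists_ext C fun g => ?_
        rw [stab_iff, IntermediateField.fixingSubgroup_fixedField]
      rw [h1]
      have h2 := avg (X := Emb (IntermediateField.fixedField C)) hc2 hcen hfree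
      have h3 := H.average _ hE
      have h4 : (L - Z) (∑ Φ ∈ types (Emb (IntermediateField.fixedField C)) c,
          ∑ x ∈ Φ, aa x Φ) = 0 := by
        rw [LinearMap.sub_apply, sub_eq_zero, map_sum, map_sum]
        simp_rw [map_sum]
        refine Eq.trans ?_ h3
        apply Finset.sum_congr rfl
        intro Φ hΦ
        apply Finset.sum_congr rfl
        intro x hx
        rw [hL _ hE Φ (Finset.mem_filter.mp hΦ).2]
        rfl
      rw [h2, map_smul, map_add, map_smul, hD1, smul_zero, zero_add] at h4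
      rcases smul_eq_zero.mp h4 with h5 | h5
      · exfalso
        obtain ⟨Φ, hΦ⟩ := types_nonempty (X := Emb (IntermediateField.fixedField C)) hc2 hfree
        have h6 : 0 < #(types (Emb (IntermediateField.fixedField C)) c) := by
          apply Finset.card_pos.mpr
          exact ⟨Φ, by simp [types, hΦ]⟩
        have h7 : (0 : ℚ) < #(types (Emb (IntermediateField.fixedField C)) c) := by
          exact_mod_cast h6
        linarith
      · exact h5
    · intro g
      rw [stab_iff, IntermediateField.fixingSubgroup_fixedField]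
    · intro hcC Φ hΦ
      have hE : IsCMSub c (IntermediateField.fixedField (commutator (K ≃ₐ[ℚ] K))) :=
        isCMSub_fixed hcC
      have h1 := H.abelian _ hE ⟨?_, ?_⟩ Φ hΦ (IntermediateField.val _)
      · rw [hL _ hE Φ hΦ] at h1
        rw [LinearMap.sub_apply, sub_eq_zero]
        exact h1
      · exact IsGalois.of_fixedField_normal_subgroup _
      · intro σ τ
        let e := IsGalois.normalAutEquivQuotient (K := ℚ) (L := K) (commutator (K ≃ₐ[ℚ] K))
        apply e.symm.injective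
        rw [map_mul, map_mul]
        exact mul_comm (G := Abelianization (K ≃ₐ[ℚ] K)) _ _
  rw [LinearMap.sub_apply, sub_eq_zero] at key
  exact key


end rat

end Pool.Agent.Q271.CM
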