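import Mathlib

/-!
# Counting CM types: an inequality of Littlewood-Offord and Sperner type
-/

open scoped Classical
open Finset

set_option linter.unusedSectionVars false
set_option linter.unusedVariables false

namespace Pool.Agent.Q271.CM

variable {G : Type*} [Fintype G]

/-- the sets which contain exactly one of `g`, `c g` for every `g` (`c` an involution) -/
noncomputable def tps (c : G → G) : Finset (Finset G) := univ.filter fun S => ∀ g, g ∈ S ↔ c g ∉ S

lemma mem_tps {c : G → G} {S : Finset G} : S ∈ tps c ↔ ∀ g, g ∈ S ↔ c g ∉ S := by simp [tps]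

variable {c : G → G} (hc2 : ∀ g, c (c g) = g) {e : G → ℝ} (he : ∀ g, e (c g) = - e g)

/-- the elements with positive value -/
abbrev Pos (e : G → ℝ) : Type _ := {g : G // 0 < e g}

/-- the part of a set in the elements with positive value -/
noncomputable def part (e : G → ℝ) (S : Finset G) : Finset (Pos e) := univ.filter fun g => g.1 ∈ S

/-- flip a set at the elements of `B` -/
noncomputable def flipB (c : G → G) {e : G → ℝ} (B : Finset (Pos e)) (S : Finset G) : Finset G :=
  univ.filter fun g => Xor (g ∈ S) ((∃ b ∈ B, b.1 = g) ∨ ∃ b ∈ B, b.1 = c g)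

lemma mem_flipB {B : Finset (Pos e)} {S : Finset G} {g : G} :
    g ∈ flipB c B S ↔ Xor (g ∈ S) ((∃ b ∈ B, b.1 = g) ∨ ∃ b ∈ B, b.1 = c g) := by simp [flipB]

include hc2 in
lemma flipB_tps {B : Finset (Pos e)} {S : Finset G} (hS : S ∈ tps c) : flipB c B S ∈ tps c := by
  rw [mem_tps] at hS ⊢
  intro g
  rw [mem_flipB, mem_flipB, hS g]
  have h1 : c (c g) = g := hc2 g
  rw [h1]
  unfold Xor
  generalize (∃ b ∈ B, b.1 = g) = p
  generalize (∃ b ∈ B, b.1 = c g) = q
  generalize (c g ∈ S) = s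
  tauto

lemma flipB_flipB {B : Finset (Pos e)} {S : Finset G} : flipB c B (flipB c B S) = S := by
  ext g
  rw [mem_flipB, mem_flipB]
  unfold Xor
  generalize (∃ b ∈ B, b.1 = g) = p
  generalize (∃ b ∈ B, b.1 = c g) = q
  generalize (g ∈ S) = s
  tauto

include he in
lemma part_flipB {B : Finset (Pos e)} {S : Finset G} :
    part e (flipB c B S) = symmDiff (part e S) B := by
  ext g
  unfold part
  rw [Finset.mem_symmDiff]
  simp only [mem_filter, mem_univ, true_and]
  rw [mem_flipB]
  have h1 : (∃ b ∈ B, b.1 = g.1) ↔ g ∈ B := by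
    constructor
    · rintro ⟨b, hb, h⟩
      rwa [← Subtype.ext h]
    · exact fun h => ⟨g, h, rfl⟩
  have h2 : ¬ ∃ b ∈ B, b.1 = c g.1 := by
    rintro ⟨b, _, h⟩
    have h3 := b.2
    rw [h, he] at h3
    have h4 := g.2
    linarith
  rw [h1]
  unfold Xor
  simp only [h2, or_false]

include hc2 he in
lemma card_fiber (B : Finset (Pos e)) :
    #((tps c).filter fun S => part e S = B) = #((tps c).filter fun S => part e S = ∅) := by
  refine Finset.card_bij' (fun S _ => flipB c B S) (fun S _ => flipB c B S) ?_ ?_ ?_ ?_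
  · intro S hS
    rw [mem_filter] at hS ⊢
    refine ⟨flipB_tps hc2 hS.1, ?_⟩
    rw [part_flipB he, hS.2, symmDiff_self]
    rfl
  · intro S hS
    rw [mem_filter] at hS ⊢
    refine ⟨flipB_tps hc2 hS.1, ?_⟩
    rw [part_flipB he, hS.2]
    exact bot_symmDiff B
  · intro S _; exact flipB_flipB
  · intro S _; exact flipB_flipB

include hc2 he in
lemma card_tps : #(tps c) = 2 ^ Fintype.card (Pos e) * #((tps c).filter fun S => part e S = ∅) := by
  have h1 := Finset.card_eq_sum_card_fiberwise (s := tps c) (t := (univ : Finset (Finset (Pos e))))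
    (f := part e) (fun S _ => by simp)
  rw [h1, Finset.sum_congr rfl (fun B _ => card_fiber hc2 he B), Finset.sum_const, Finset.card_univ,
    Fintype.card_finset, smul_eq_mul]

include hc2 he in
lemma sum_part {S : Finset G} (hS : S ∈ tps c) :
    ∑ b ∈ S, e b = 2 * ∑ g ∈ part e S, e g.1 - ∑ g : Pos e, e g.1 := by
  rw [mem_tps] at hS
  have h0 : ∀ g, c (c g) = g := hc2
  -- positive, negative and zero part
  have h1 : ∑ b ∈ S, e b = ∑ b ∈ S.filter (fun b => 0 < e b), e b +
      ∑ b ∈ S.filter (fun b => e b < 0), e b := by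
    rw [← Finset.sum_filter_add_sum_filter_not S (fun b => 0 < e b)]
    congr 1
    have h2 : S.filter (fun b => e b < 0) ⊆ S.filter (fun b => ¬ 0 < e b) := by
      intro b hb
      rw [mem_filter] at hb ⊢
      exact ⟨hb.1, by linarith [hb.2]⟩
    symm
    refine Finset.sum_subset h2 fun b hb hb' => ?_
    rw [mem_filter] at hb hb'
    have h3 : ¬ e b < 0 := fun h => hb' ⟨hb.1, h⟩
    have h4 := hb.2
    push Not at h3 h4
    linarith
  have h2 : ∑ b ∈ S.filter (fun b => 0 < e b), e b = ∑ g ∈ part e S, e g.1 := by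
    symm
    refine Finset.sum_bij (fun g _ => g.1) ?_ ?_ ?_ ?_
    · intro g hg
      simp only [part, mem_filter, mem_univ, true_and] at hg
      exact mem_filter.2 ⟨hg, g.2⟩
    · intro a _ b _ h; exact Subtype.ext h
    · intro b hb
      rw [mem_filter] at hb
      exact ⟨⟨b, hb.2⟩, by simp [part, hb.1], rfl⟩
    · intro g _; rfl
  have h3 : ∑ b ∈ S.filter (fun b => e b < 0), e b =
      - ∑ g ∈ univ.filter (fun g : Pos e => g ∉ part e S), e g.1 := by
    rw [← Finset.sum_neg_distrib]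
    refine Finset.sum_bij' (fun b hb => (⟨c b, by
      rw [mem_filter] at hb; rw [he]; linarith [hb.2]⟩ : Pos e)) (fun g _ => c g.1) ?_ ?_ ?_ ?_ ?_
    · intro b hb
      rw [mem_filter] at hb
      simp only [part, mem_filter, mem_univ, true_and]
      exact (hS b).1 hb.1
    · intro g hg
      simp only [part, mem_filter, mem_univ, true_and] at hg
      rw [mem_filter]
      refine ⟨(hS _).2 (by rwa [h0]), ?_⟩
      rw [he]; linarith [g.2]
    · intro b _; exact h0 b
    · intro g _; exact Subtype.ext (h0 g.1)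
    · intro b _
      show e b = - e (c b)
      rw [he]; ring
  have h4 : ∑ g : Pos e, e g.1 = ∑ g ∈ part e S, e g.1 +
      ∑ g ∈ univ.filter (fun g : Pos e => g ∉ part e S), e g.1 := by
    rw [← Finset.sum_filter_add_sum_filter_not univ (fun g : Pos e => g ∈ part e S)]
    congr 1
    apply Finset.sum_congr
    · ext g; simp
    · intro g _; rfl
  rw [h1, h2, h3, h4]
  ring

include hc2 he in
/-- The number of types with sum zero. -/
theorem card_zero : #((tps c).filter fun S => ∑ b ∈ S, e b = 0) * 2 ^ Fintype.card (Pos e) ≤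
    (Fintype.card (Pos e)).choose (Fintype.card (Pos e) / 2) * #(tps c) := by
  set 𝒜 : Finset (Finset (Pos e)) :=
    univ.filter fun B => 2 * ∑ g ∈ B, e g.1 - ∑ g : Pos e, e g.1 = 0 with h𝒜
  have hanti : IsAntichain (· ⊆ ·) (𝒜 : Set (Finset (Pos e))) := by
    intro B hB B' hB' hne hsub
    have h1 : B ⊂ B' := hsub.ssubset_of_ne hne
    obtain ⟨x, hx, hx'⟩ := Finset.exists_of_ssubset h1
    have h2 : ∑ g ∈ B, e g.1 < ∑ g ∈ B', e g.1 :=
      Finset.sum_lt_sum_of_subset hsub hx hx' x.2 (fun g _ _ => g.2.le)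
    have h3 : B ∈ 𝒜 := hB
    have h4 : B' ∈ 𝒜 := hB'
    rw [h𝒜, mem_filter] at h3 h4
    linarith [h3.2, h4.2]
  have hsp := hanti.sperner
  set F := #((tps c).filter fun S => part e S = ∅) with hF
  have h1 : #((tps c).filter fun S => ∑ b ∈ S, e b = 0) ≤ #𝒜 * F := by
    have h2 := Finset.card_eq_sum_card_fiberwise
      (s := (tps c).filter fun S => ∑ b ∈ S, e b = 0) (t := 𝒜) (f := part e) (by
        intro S hS
        have hS' : S ∈ (tps c).filter fun S => ∑ b ∈ S, e b = 0 := hS
        rw [mem_filter] at hS'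
        show part e S ∈ 𝒜
        rw [h𝒜, mem_filter]
        refine ⟨mem_univ _, ?_⟩
        rw [← sum_part hc2 he hS'.1]
        exact hS'.2)
    rw [h2]
    refine (Finset.sum_le_card_nsmul 𝒜 _ F fun B _ => ?_).trans_eq (smul_eq_mul _ _)
    rw [hF, ← card_fiber hc2 he B]
    apply Finset.card_le_card
    intro S hS
    rw [mem_filter, mem_filter] at hS
    exact mem_filter.2 ⟨hS.1.1, hS.2⟩
  calc #((tps c).filter fun S => ∑ b ∈ S, e b = 0) * 2 ^ Fintype.card (Pos e)
      ≤ (#𝒜 * F) * 2 ^ Fintype.card (Pos e) := Nat.mul_le_mul_right _ h1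
    _ ≤ ((Fintype.card (Pos e)).choose (Fintype.card (Pos e) / 2) * F) *
        2 ^ Fintype.card (Pos e) := Nat.mul_le_mul_right _ (Nat.mul_le_mul_right _ hsp)
    _ = (Fintype.card (Pos e)).choose (Fintype.card (Pos e) / 2) * #(tps c) := by
        rw [card_tps hc2 he]; ring

/-- A bound for the middle binomial coefficient. -/
lemma centralBinom_sq (n : ℕ) : n.centralBinom ^ 2 * (2 * n + 1) ≤ 4 ^ (2 * n) := by
  induction n with
  | zero => simp
  | succ n ih =>
    have h1 := Nat.succ_mul_centralBinom_succ n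
    have h2 : (n + 1) ^ 2 * ((n + 1).centralBinom ^ 2 * (2 * (n + 1) + 1)) ≤
        (n + 1) ^ 2 * 4 ^ (2 * (n + 1)) := by
      have h3 : (n + 1) ^ 2 * ((n + 1).centralBinom ^ 2 * (2 * (n + 1) + 1)) =
          4 * ((2 * n + 1) * (2 * n + 3)) * (n.centralBinom ^ 2 * (2 * n + 1)) := by
        have : (n + 1) ^ 2 * ((n + 1).centralBinom ^ 2 * (2 * (n + 1) + 1)) =
            ((n + 1) * (n + 1).centralBinom) ^ 2 * (2 * n + 3) := by ring
        rw [this, h1]; ring
      rw [h3]
      have h4 : (2 * n + 1) * (2 * n + 3) ≤ 4 * (n + 1) ^ 2 := by nlinarith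
      calc 4 * ((2 * n + 1) * (2 * n + 3)) * (n.centralBinom ^ 2 * (2 * n + 1))
          ≤ 4 * (4 * (n + 1) ^ 2) * 4 ^ (2 * n) := Nat.mul_le_mul (Nat.mul_le_mul_left _ h4) ih
        _ = (n + 1) ^ 2 * 4 ^ (2 * (n + 1)) := by ring
    exact Nat.le_of_mul_le_mul_left h2 (by positivity)

lemma choose_half_sq (m : ℕ) : (m.choose (m / 2)) ^ 2 * (m + 1) ≤ 4 ^ m := by
  rcases Nat.even_or_odd' m with ⟨n, rfl | rfl⟩
  · have h1 := centralBinom_sq n
    rw [show 2 * n / 2 = n by omega]
    rw [Nat.centralBinom_eq_two_mul_choose] at h1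
    exact h1
  · have h1 := centralBinom_sq (n + 1)
    rw [show (2 * n + 1) / 2 = n by omega]
    have h2 : (n + 1).centralBinom = 2 * (2 * n + 1).choose n := by
      rw [Nat.centralBinom_eq_two_mul_choose, show 2 * (n + 1) = (2 * n + 1) + 1 by ring,
        Nat.choose_succ_succ, Nat.choose_symm_half]
      ring
    rw [h2] at h1
    have h3 : 4 * (((2 * n + 1).choose n) ^ 2 * (2 * n + 1 + 1)) ≤ 4 * 4 ^ (2 * n + 1) := by
      calc 4 * (((2 * n + 1).choose n) ^ 2 * (2 * n + 1 + 1))
          ≤ (2 * (2 * n + 1).choose n) ^ 2 * (2 * (n + 1) + 1) := by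
            have : (2 * (2 * n + 1).choose n) ^ 2 * (2 * (n + 1) + 1) =
              4 * (((2 * n + 1).choose n) ^ 2 * (2 * n + 1 + 1)) +
                4 * ((2 * n + 1).choose n) ^ 2 := by ring
            omega
        _ ≤ 4 ^ (2 * (n + 1)) := h1
        _ = 4 * 4 ^ (2 * n + 1) := by ring
    exact Nat.le_of_mul_le_mul_left h3 (by norm_num)

include hc2 he in
/-- The proportion of the types with sum zero. -/
theorem prop_zero {B : ℕ} (hB : B ≤ Fintype.card (Pos e)) :
    (#((tps c).filter fun S => ∑ b ∈ S, e b = 0) : ℝ) ≤ #(tps c) / Real.sqrt (B + 1) := by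
  set m := Fintype.card (Pos e) with hm
  have h1 := card_zero hc2 he
  rw [← hm] at h1
  have h2 := choose_half_sq m
  have h1' : (#((tps c).filter fun S => ∑ b ∈ S, e b = 0) : ℝ) * 2 ^ m ≤
      (m.choose (m / 2) : ℝ) * #(tps c) := by exact_mod_cast h1
  have h2' : (m.choose (m / 2) : ℝ) ^ 2 * (m + 1) ≤ 4 ^ m := by exact_mod_cast h2
  have hs : 0 < Real.sqrt ((B : ℝ) + 1) := Real.sqrt_pos.2 (by positivity)
  have h3 : (m.choose (m / 2) : ℝ) * Real.sqrt (B + 1) ≤ 2 ^ m := by
    refine (pow_le_pow_iff_left₀ (by positivity) (by positivity) two_ne_zero).1 ?_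
    rw [mul_pow, Real.sq_sqrt (by positivity)]
    have h4 : ((2 : ℝ) ^ m) ^ 2 = 4 ^ m := by
      rw [← pow_mul, mul_comm, pow_mul]; norm_num
    rw [h4]
    refine le_trans ?_ h2'
    have h5 : (B : ℝ) + 1 ≤ m + 1 := by
      have : (B : ℝ) ≤ m := by exact_mod_cast hB
      linarith
    exact mul_le_mul_of_nonneg_left h5 (by positivity)
  rw [le_div_iff₀ hs]
  have h6 : (0 : ℝ) < 2 ^ m := by positivity
  have h7 : (#((tps c).filter fun S => ∑ b ∈ S, e b = 0) : ℝ) * Real.sqrt (B + 1) * 2 ^ m ≤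
      (#(tps c) : ℝ) * 2 ^ m := by
    calc (#((tps c).filter fun S => ∑ b ∈ S, e b = 0) : ℝ) * Real.sqrt (B + 1) * 2 ^ m
        = ((#((tps c).filter fun S => ∑ b ∈ S, e b = 0) : ℝ) * 2 ^ m) * Real.sqrt (B + 1) := by ring
      _ ≤ ((m.choose (m / 2) : ℝ) * #(tps c)) * Real.sqrt (B + 1) :=
          mul_le_mul_of_nonneg_right h1' hs.le
      _ = ((m.choose (m / 2) : ℝ) * Real.sqrt (B + 1)) * #(tps c) := by ring
      _ ≤ 2 ^ m * #(tps c) := mul_le_mul_of_nonneg_right h3 (by positivity)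
      _ = (#(tps c) : ℝ) * 2 ^ m := by ring
  exact le_of_mul_le_mul_right h7 h6

end Pool.Agent.Q271.CM
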