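import Pool.Agent.Q271.CM.Base

/-!
# Averages of point masses, and signatures of types
-/

open scoped Classical
open Finset

set_option linter.unusedSectionVars false
set_option linter.unusedVariables false

namespace Pool.Agent.Q271.CM

open Q264.CM

section comb

variable {α : Type*}

/-- A function on a finite set is zero if its sums over all subsets of one size are. -/
lemma zero_of_sums {H : Finset α} {e : α → ℝ} {r : ℕ} (hr0 : 0 < r) (hr : r < #H)
    (h : ∀ T ⊆ H, #T = r → ∑ t ∈ T, e t = 0) : ∀ a ∈ H, e a = 0 := by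
  have key : ∀ a ∈ H, ∀ b ∈ H, e a = e b := by
    intro a ha b hb
    by_cases hab : a = b
    · rw [hab]
    have h1 : r - 1 ≤ #((H.erase a).erase b) := by
      rw [card_erase_of_mem (mem_erase.2 ⟨Ne.symm hab, hb⟩), card_erase_of_mem ha]; omega
    obtain ⟨T, hT, hTc⟩ := exists_subset_card_eq h1
    have haT : a ∉ T := fun h => by simpa using hT h
    have hbT : b ∉ T := fun h => by simpa using hT h
    have hTH : T ⊆ H := fun x hx => (erase_subset _ _ ((erase_subset _ _) (hT hx)))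
    have e1 := h (insert a T) (insert_subset ha hTH) (by rw [card_insert_of_notMem haT]; omega)
    have e2 := h (insert b T) (insert_subset hb hTH) (by rw [card_insert_of_notMem hbT]; omega)
    rw [sum_insert haT] at e1
    rw [sum_insert hbT] at e2
    linarith
  intro a ha
  obtain ⟨T, hT, hTc⟩ := exists_subset_card_eq hr.le
  have h1 := h T hT hTc
  rw [sum_congr rfl (fun t ht => key t (hT ht) a ha), sum_const, hTc, nsmul_eq_mul] at h1
  rcases mul_eq_zero.1 h1 with h2 | h2
  · have : (r : ℝ) ≠ 0 := by exact_mod_cast hr0.ne'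
    exact absurd h2 this
  · exact h2

/-- The sum of the weights of the pairs in a set. -/
noncomputable def pairs (w : α → α → ℝ) (T : Finset α) : ℝ := ∑ x ∈ T, ∑ y ∈ T.erase x, w x y

lemma pairs_insert {w : α → α → ℝ} (hw : ∀ x y, w x y = w y x) {T : Finset α} {a : α}
    (ha : a ∉ T) : pairs w (insert a T) = pairs w T + 2 * ∑ t ∈ T, w a t := by
  unfold pairs
  rw [sum_insert ha, erase_insert ha]
  have h1 : ∑ x ∈ T, ∑ y ∈ (insert a T).erase x, w x y =
      ∑ x ∈ T, (w a x + ∑ y ∈ T.erase x, w x y) := by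
    apply sum_congr rfl
    intro x hx
    have hxa : a ≠ x := fun h => ha (h ▸ hx)
    rw [erase_insert_of_ne hxa, sum_insert (fun h => ha (mem_of_mem_erase h)), hw x a]
  rw [h1, sum_add_distrib]
  ring

/-- Symmetric weights of the pairs in a finite set are zero if the sums of the weights of the pairs
in the subsets of one size are. -/
lemma zero_of_pairs {H : Finset α} {w : α → α → ℝ} (hw : ∀ x y, w x y = w y x) {r : ℕ}
    (hr0 : 2 ≤ r) (hr : r + 2 ≤ #H) (h : ∀ T ⊆ H, #T = r → pairs w T = 0) :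
    ∀ a ∈ H, ∀ b ∈ H, a ≠ b → w a b = 0 := by
  have key : ∀ a ∈ H, ∀ b ∈ H, a ≠ b → ∀ t ∈ H, t ≠ a → t ≠ b → w a t = w b t := by
    intro a ha b hb hab t ht hta htb
    have h1 := zero_of_sums (H := (H.erase a).erase b) (e := fun t => w a t - w b t) (r := r - 1)
      (by omega) (by
        rw [card_erase_of_mem (mem_erase.2 ⟨Ne.symm hab, hb⟩), card_erase_of_mem ha]; omega) ?_ t
      (by simp [ht, hta, htb])
    · linarith
    · intro T hT hTc
      have haT : a ∉ T := fun h => by simpa using hT h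
      have hbT : b ∉ T := fun h => by simpa using hT h
      have hTH : T ⊆ H := fun x hx => (erase_subset _ _ ((erase_subset _ _) (hT hx)))
      have e1 := h (insert a T) (insert_subset ha hTH) (by rw [card_insert_of_notMem haT]; omega)
      have e2 := h (insert b T) (insert_subset hb hTH) (by rw [card_insert_of_notMem hbT]; omega)
      rw [pairs_insert hw haT] at e1
      rw [pairs_insert hw hbT] at e2
      rw [sum_sub_distrib]
      linarith
  have key2 : ∀ a ∈ H, ∀ b ∈ H, a ≠ b → ∀ x ∈ H, ∀ y ∈ H, x ≠ y → w x y = w a b := by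
    intro a ha b hb hab x hx y hy hxy
    by_cases hya : y = a
    · subst hya
      by_cases hxb : x = b
      · rw [hxb, hw]
      · rw [key x hx b hb hxb y hy (Ne.symm hxy) hab, hw]
    · have h1 : w x y = w a y := by
        by_cases hxa : x = a
        · rw [hxa]
        · exact key x hx a ha hxa y hy (Ne.symm hxy) hya
      rw [h1, hw a y]
      by_cases hyb : y = b
      · rw [hyb, hw]
      · rw [key y hy b hb hyb a ha (Ne.symm hya) hab, hw]
  intro a ha b hb hab
  obtain ⟨T, hT, hTc⟩ := exists_subset_card_eq (show r ≤ #H by omega)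
  have h1 := h T hT hTc
  unfold pairs at h1
  have h2 : ∀ x ∈ T, ∑ y ∈ T.erase x, w x y = ((r - 1 : ℕ) : ℝ) * w a b := by
    intro x hx
    rw [sum_congr rfl (fun y hy => key2 a ha b hb hab x (hT hx) y (hT (mem_of_mem_erase hy))
      (ne_of_mem_erase hy).symm), sum_const, card_erase_of_mem hx, hTc, nsmul_eq_mul]
  rw [sum_congr rfl h2, sum_const, hTc, nsmul_eq_mul] at h1
  have h3 : (r : ℝ) ≠ 0 := by
    have : r ≠ 0 := by omega
    exact_mod_cast this
  have h4 : ((r - 1 : ℕ) : ℝ) ≠ 0 := by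
    have : r - 1 ≠ 0 := by omega
    exact_mod_cast this
  rcases mul_eq_zero.1 h1 with h5 | h5
  · exact absurd h5 h3
  · rcases mul_eq_zero.1 h5 with h6 | h6
    · exact absurd h6 h4
    · exact h6

end comb

section grp

variable {G : Type*} [Group G] [Fintype G]

/-- The average of the point mass at `u` over the conjugates of the argument. -/
noncomputable def AA (u g : G) : ℚ := (∑ η : G, if η⁻¹ * g * η = u then (1 : ℚ) else 0) / Nat.card G

lemma aa_AA {X : Type*} [Fintype X] [MulAction G X] (x0 : X) (a : G) (Φ : Finset X) :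
    (aa (a • x0) Φ : G → ℚ) = ∑ b ∈ univ.filter (fun b : G => b • x0 ∈ Φ), AA (b * a⁻¹) := by
  funext g
  rw [aa_eq, Finset.sum_apply]
  unfold AA
  rw [← Finset.sum_div, Finset.sum_comm]
  congr 1
  apply Finset.sum_congr rfl
  intro η _
  have h1 : ∀ b : G, (η⁻¹ * g * η = b * a⁻¹) ↔ b = η⁻¹ * g * η * a := by
    intro b
    rw [eq_mul_inv_iff_mul_eq]
    exact eq_comm
  simp_rw [h1]
  rw [Finset.sum_ite_eq']
  simp only [mem_filter, mem_univ, true_and]
  rw [mul_smul (η⁻¹ * g * η) a x0]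

lemma AA_conj (x u : G) : (AA (x * u * x⁻¹) : G → ℚ) = AA u := by
  funext g
  unfold AA
  congr 1
  refine Fintype.sum_equiv (Equiv.mulRight x) _ _ fun η => ?_
  rw [Equiv.coe_mulRight]
  have : (η⁻¹ * g * η = x * u * x⁻¹) ↔ ((η * x)⁻¹ * g * (η * x) = u) := by
    rw [mul_inv_rev]
    constructor
    · intro h
      have h2 : x⁻¹ * η⁻¹ * g * (η * x) = x⁻¹ * (η⁻¹ * g * η) * x := by group
      rw [h2, h]; group
    · intro h
      have h2 : η⁻¹ * g * η = x * (x⁻¹ * η⁻¹ * g * (η * x)) * x⁻¹ := by group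
      rw [h2, h]
  simp only [this]

lemma sum_AA (f : G → ℚ) (hf : ∀ x g, f (x * g * x⁻¹) = f g) :
    ∑ u : G, f u • (AA u : G → ℚ) = f := by
  funext g
  rw [Finset.sum_apply]
  simp only [Pi.smul_apply, smul_eq_mul]
  unfold AA
  have h1 : ∀ u : G, f u * ((∑ η : G, if η⁻¹ * g * η = u then (1 : ℚ) else 0) / Nat.card G) =
      (∑ η : G, if η⁻¹ * g * η = u then f u else 0) / Nat.card G := by
    intro u
    rw [← mul_div_assoc, Finset.mul_sum]
    congr 1
    apply Finset.sum_congr rfl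
    intro η _
    rw [mul_ite, mul_one, mul_zero]
  simp_rw [h1]
  rw [← Finset.sum_div, Finset.sum_comm]
  have h2 : ∀ η : G, (∑ u : G, if η⁻¹ * g * η = u then f u else 0) = f g := by
    intro η
    rw [Finset.sum_ite_eq]
    simp only [mem_univ, if_true]
    have := hf η⁻¹ g
    rw [inv_inv] at this
    exact this
  simp_rw [h2]
  rw [Finset.sum_const, nsmul_eq_mul, Finset.card_univ, ← Nat.card_eq_fintype_card,
    mul_div_cancel_left₀ _ (card_ne (G := G))]

variable (D : (G → ℚ) →ₗ[ℚ] ℝ)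

/-- The values of the functional at the averaged point masses. -/
noncomputable def Ev (u : G) : ℝ := D (AA u)

lemma D_eq (f : G → ℚ) (hf : ∀ x g, f (x * g * x⁻¹) = f g) :
    D f = ∑ u : G, (f u : ℝ) * Ev D u := by
  conv_lhs => rw [← sum_AA f hf]
  rw [map_sum]
  apply Finset.sum_congr rfl
  intro u _
  rw [map_smul, Rat.smul_def]
  rfl

lemma sum_Ev (h1 : D 1 = 0) : ∑ u : G, Ev D u = 0 := by
  have := D_eq D 1 (fun _ _ => rfl)
  rw [h1] at this
  simpa using this.symm

/-- Class functions `f` with `f(g) + f(c g)` constant. -/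
lemma D_odd {c : G} (hc2 : c * c = 1) (h1 : D 1 = 0) (f : G → ℚ)
    (hf : ∀ x g, f (x * g * x⁻¹) = f g) (κ : ℚ) (hκ : ∀ g, f g + f (c * g) = 2 * κ) :
    D f = ∑ u : G, ((f u - κ : ℚ) : ℝ) * (Ev D u - Ev D (c * u)) / 2 := by
  have e1 := D_eq D f hf
  have e2 : ∑ u : G, ((κ : ℚ) : ℝ) * Ev D u = 0 := by
    rw [← Finset.mul_sum, sum_Ev D h1, mul_zero]
  have e3 : ∑ u : G, ((f u - κ : ℚ) : ℝ) * Ev D (c * u) =
      - ∑ u : G, ((f u - κ : ℚ) : ℝ) * Ev D u := by
    rw [← Finset.sum_neg_distrib]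
    refine Fintype.sum_equiv (Equiv.mulLeft c) _ _ fun u => ?_
    rw [Equiv.coe_mulLeft]
    have h2 := hκ u
    have h3 : f u - κ = -(f (c * u) - κ) := by linarith
    rw [h3]
    push_cast
    ring
  rw [← Finset.sum_div]
  have e4 : ∑ u : G, ((f u - κ : ℚ) : ℝ) * (Ev D u - Ev D (c * u)) =
      ∑ u : G, ((f u - κ : ℚ) : ℝ) * Ev D u - ∑ u : G, ((f u - κ : ℚ) : ℝ) * Ev D (c * u) := by
    rw [← Finset.sum_sub_distrib]
    apply Finset.sum_congr rfl
    intro u _
    ring
  have e5 : ∑ u : G, ((f u - κ : ℚ) : ℝ) * Ev D u = D f := by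
    rw [e1]
    have : ∑ u : G, (f u : ℝ) * Ev D u - ∑ u : G, ((κ : ℚ) : ℝ) * Ev D u =
        ∑ u : G, ((f u - κ : ℚ) : ℝ) * Ev D u := by
      rw [← Finset.sum_sub_distrib]
      apply Finset.sum_congr rfl
      intro u _
      push_cast
      ring
    rw [← this, e2, sub_zero]
  rw [e4, e3, e5]
  ring

variable {D}

/-- the type with the part `c T` outside of `H` -/
noncomputable def typ (c : G) (H : Subgroup G) (T : Finset G) : Finset G :=
  univ.filter fun g => (g ∈ H ∧ g ∉ T) ∨ (g ∉ H ∧ c * g ∈ T)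

variable {c : G} (hc2 : c * c = 1) {H : Subgroup G} (hH : H.index = 2) (hcH : c ∉ H)

include hH hcH in
lemma mem_iff_c (g : G) : c * g ∈ H ↔ g ∉ H := by
  rw [Subgroup.mul_mem_iff_of_index_two hH]
  tauto

include hc2 hH hcH in
lemma typ_isType {T : Finset G} (hT : ∀ t ∈ T, t ∈ H) (g : G) :
    g ∈ typ c H T ↔ c * g ∉ typ c H T := by
  unfold typ
  simp only [mem_filter, mem_univ, true_and]
  rw [mem_iff_c hH hcH, ← mul_assoc, hc2, one_mul]
  have h1 := hT g
  have h2 := hT (c * g)
  rw [mem_iff_c hH hcH] at h2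
  tauto

include hc2 hH hcH in
lemma typ_filter {T : Finset G} (hT : ∀ t ∈ T, t ∈ H) :
    #((typ c H T).filter fun g => g ∉ H) = #T := by
  refine Finset.card_bij' (fun g _ => c * g) (fun g _ => c * g) ?_ ?_ ?_ ?_
  · intro g hg
    simp only [typ, mem_filter, mem_univ, true_and] at hg
    tauto
  · intro g hg
    simp only [typ, mem_filter, mem_univ, true_and]
    rw [mem_iff_c hH hcH, ← mul_assoc, hc2, one_mul]
    have := hT g hg
    tauto
  · intro g _
    rw [← mul_assoc, hc2, one_mul]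
  · intro g _
    rw [← mul_assoc, hc2, one_mul]

/-- the elements of `H` -/
noncomputable def HF (H : Subgroup G) : Finset G := univ.filter fun g => g ∈ H

lemma mem_HF {g : G} : g ∈ HF H ↔ g ∈ H := by simp [HF]

include hc2 hH hcH in
lemma sum_typ {T : Finset G} (hT : ∀ t ∈ T, t ∈ H) (F : G → ℝ) :
    ∑ g ∈ typ c H T, F g = ∑ g ∈ HF H, F g - ∑ t ∈ T, (F t - F (c * t)) := by
  have h1 : typ c H T = (HF H \ T) ∪ T.image (fun g => c * g) := by
    ext g
    simp only [typ, mem_filter, mem_univ, true_and, mem_union, mem_sdiff, mem_HF, mem_image]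
    constructor
    · rintro (h | ⟨h, h'⟩)
      · exact Or.inl h
      · exact Or.inr ⟨c * g, h', by rw [← mul_assoc, hc2, one_mul]⟩
    · rintro (h | ⟨a, ha, rfl⟩)
      · exact Or.inl h
      · refine Or.inr ⟨?_, ?_⟩
        · rw [mem_iff_c hH hcH]; simpa using hT a ha
        · rw [← mul_assoc, hc2, one_mul]; exact ha
  have h2 : Disjoint (HF H \ T) (T.image (fun g => c * g)) := by
    rw [Finset.disjoint_left]
    intro g hg hg'
    obtain ⟨a, ha, rfl⟩ := mem_image.1 hg'
    have h3 := mem_HF.1 (mem_sdiff.1 hg).1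
    rw [mem_iff_c hH hcH] at h3
    exact h3 (hT a ha)
  have hTH : T ⊆ HF H := fun t ht => mem_HF.2 (hT t ht)
  rw [h1, sum_union h2, sum_image (fun a _ b _ h => mul_left_cancel h), sum_sub_distrib]
  have h3 := Finset.sum_sdiff (f := F) hTH
  linarith

include hc2 hH hcH in
/-- One signature. -/
theorem one_sig {E : G → ℝ} (hE : ∑ g ∈ HF H, E g = 0) {r : ℕ} (hr0 : 0 < r) (hr : r < #(HF H))
    (h : ∀ S : Finset G, (∀ g, g ∈ S ↔ c * g ∉ S) → #(S.filter fun g => g ∉ H) = r →
      ∑ b ∈ S, E b = 0) : ∀ u, E u = E (c * u) := by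
  have h1 : ∀ a ∈ HF H, E a - E (c * a) = 0 := by
    refine zero_of_sums hr0 hr fun T hT hTc => ?_
    have hT' : ∀ t ∈ T, t ∈ H := fun t ht => mem_HF.1 (hT ht)
    have h2 := h (typ c H T) (typ_isType hc2 hH hcH hT')
      (by rw [typ_filter hc2 hH hcH hT', hTc])
    rw [sum_typ hc2 hH hcH hT', hE] at h2
    linarith
  intro u
  by_cases hu : u ∈ H
  · have := h1 u (mem_HF.2 hu)
    linarith
  · have := h1 (c * u) (mem_HF.2 ((mem_iff_c hH hcH u).2 hu))
    rw [← mul_assoc, hc2, one_mul] at this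
    linarith

include hc2 in
theorem D_zero {D : (G → ℚ) →ₗ[ℚ] ℝ} (h1 : D 1 = 0) (h : ∀ u, Ev D u = Ev D (c * u)) (f : G → ℚ)
    (hf : ∀ x g, f (x * g * x⁻¹) = f g) (κ : ℚ) (hκ : ∀ g, f g + f (c * g) = 2 * κ) : D f = 0 := by
  rw [D_odd D hc2 h1 f hf κ hκ]
  apply Finset.sum_eq_zero
  intro u _
  rw [h u, sub_self, mul_zero, zero_div]

end grp

end Pool.Agent.Q271.CM
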