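import Pool.Agent.Q271.CM.Res

/-!
# A larger Galois CM field with larger conjugacy classes
-/

open scoped Classical
open Finset Polynomial

set_option linter.unusedSectionVars false
set_option linter.unusedVariables false

namespace Pool.Agent.Q271.CM

variable {K₁ : Type} [Field K₁] [NumberField K₁] [IsGalois ℚ K₁] {c₁ : K₁ ≃ₐ[ℚ] K₁}

/-- complex conjugation as an automorphism over `ℚ` -/
noncomputable def conjQ : ℂ ≃ₐ[ℚ] ℂ := Complex.conjAe.restrictScalars ℚ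

lemma conjQ_apply (z : ℂ) : conjQ z = starRingEnd ℂ z := rfl

/-- The polynomial with the roots `± √(t + θ_i)`. -/
noncomputable def polyT (θ : K₁) (t : ℕ) : ℚ[X] := (minpoly ℚ θ).comp (X ^ 2 - C (t : ℚ))

/-- The subfield of `ℂ` generated by the conjugates of `√(t + θ)` and an image of `K₁`. -/
noncomputable def bigF (j : K₁ →ₐ[ℚ] ℂ) (θ : K₁) (t : ℕ) : IntermediateField ℚ ℂ :=
  j.fieldRange ⊔ IntermediateField.adjoin ℚ ((polyT θ t).rootSet ℂ)

lemma polyT_splitting (θ : K₁) (t : ℕ) :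
    (polyT θ t).IsSplittingField ℚ (IntermediateField.adjoin ℚ ((polyT θ t).rootSet ℂ)) :=
  IntermediateField.adjoin_rootSet_isSplittingField (IsAlgClosed.splits _)

lemma bigF_facts (j : K₁ →ₐ[ℚ] ℂ) (θ : K₁) (t : ℕ) :
    FiniteDimensional ℚ (bigF j θ t) ∧ Normal ℚ (bigF j θ t) := by
  have h1 : Normal ℚ j.fieldRange := Normal.of_algEquiv j.equivFieldRange
  have h2 : FiniteDimensional ℚ j.fieldRange :=
    Module.Finite.equiv (j.equivFieldRange).toLinearEquiv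
  have h3 := polyT_splitting θ t
  have h4 : Normal ℚ (IntermediateField.adjoin ℚ ((polyT θ t).rootSet ℂ)) :=
    Normal.of_isSplittingField (polyT θ t)
  have h5 : FiniteDimensional ℚ (IntermediateField.adjoin ℚ ((polyT θ t).rootSet ℂ)) :=
    IsSplittingField.finiteDimensional _ (polyT θ t)
  exact ⟨@IntermediateField.finiteDimensional_sup ℚ ℂ _ _ _ _ _ h2 h5,
    @IntermediateField.normal_sup ℚ ℂ _ _ _ _ _ h1 h4⟩

section conj

variable (hc : ∀ (φ : K₁ →+* ℂ) (x : K₁), φ (c₁ x) = starRingEnd ℂ (φ x))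

/-- A root `w` of the polynomial: `w ^ 2 = t + ψ(θ)` for an embedding `ψ`. -/
lemma root_sq {θ : K₁} {t : ℕ} {w : ℂ} (hw : w ∈ (polyT θ t).rootSet ℂ) :
    ∃ ψ : K₁ →+* ℂ, w ^ 2 = (t : ℂ) + ψ θ := by
  have h1 := (Polynomial.mem_rootSet'.1 hw).2
  have h2 : aeval (w ^ 2 - (t : ℂ)) (minpoly ℚ θ) = 0 := by
    rw [polyT, aeval_comp] at h1
    simpa using h1
  have h3 : (w ^ 2 - (t : ℂ)) ∈ (minpoly ℚ θ).rootSet ℂ := by
    rw [Polynomial.mem_rootSet]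
    exact ⟨minpoly.ne_zero (Algebra.IsIntegral.isIntegral θ), h2⟩
  rw [← Algebra.IsAlgebraic.range_eval_eq_rootSet_minpoly ℂ θ] at h3
  obtain ⟨ψ, hψ⟩ := h3
  refine ⟨(ψ : K₁ →ₐ[ℚ] ℂ), ?_⟩
  have h4 : (ψ : K₁ →ₐ[ℚ] ℂ) θ = w ^ 2 - (t : ℂ) := hψ
  show w ^ 2 = (t : ℂ) + ψ θ
  rw [h4]; ring

/-- A number whose square is `t + ψ(θ)` is a root of the polynomial. -/
lemma root_of_sq {θ : K₁} {t : ℕ} {w : ℂ} (ψ : K₁ →+* ℂ) (hw : w ^ 2 = (t : ℂ) + ψ θ) :
    w ∈ (polyT θ t).rootSet ℂ := by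
  have h0 : polyT θ t ≠ 0 := by
    unfold polyT
    intro h
    have h1 := congrArg Polynomial.natDegree h
    rw [Polynomial.natDegree_comp] at h1
    have h2 : 0 < (minpoly ℚ θ).natDegree := minpoly.natDegree_pos (Algebra.IsIntegral.isIntegral θ)
    have h3 : (X ^ 2 - C (t : ℚ)).natDegree = 2 := Polynomial.natDegree_X_pow_sub_C
    rw [h3, Polynomial.natDegree_zero] at h1
    omega
  rw [Polynomial.mem_rootSet]
  refine ⟨h0, ?_⟩
  rw [polyT, aeval_comp]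
  have h1 : aeval w (X ^ 2 - C (t : ℚ)) = ψ θ := by
    simp [hw]
  rw [h1]
  have h2 : aeval ((ψ.toRatAlgHom) θ) (minpoly ℚ θ) = 0 := by
    rw [Polynomial.aeval_algHom_apply, minpoly.aeval, map_zero]
  exact h2

lemma exists_conj (F : IntermediateField ℚ ℂ) (hF : Normal ℚ F) :
    ∃ c₂ : F ≃ₐ[ℚ] F, ∀ z : F, ((c₂ z : F) : ℂ) = starRingEnd ℂ (z : ℂ) :=
  ⟨conjQ.restrictNormal F, fun z => AlgEquiv.restrictNormal_commutes conjQ F z⟩

/-- the embedding of `K₁` in the larger field -/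
noncomputable def iotaF (j : K₁ →ₐ[ℚ] ℂ) (θ : K₁) (t : ℕ) : K₁ →+* bigF j θ t where
  toFun a := ⟨j a, (le_sup_left : j.fieldRange ≤ bigF j θ t) ⟨a, rfl⟩⟩
  map_one' := Subtype.ext (map_one j)
  map_mul' a b := Subtype.ext (map_mul j a b)
  map_zero' := Subtype.ext (map_zero j)
  map_add' a b := Subtype.ext (map_add j a b)

lemma iotaF_coe (j : K₁ →ₐ[ℚ] ℂ) (θ : K₁) (t : ℕ) (a : K₁) : ((iotaF j θ t a : bigF j θ t) : ℂ) = j a :=
  rfl

/-- Positivity of all conjugates of `t + θ`. -/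
def TotPos (θ : K₁) (t : ℕ) : Prop := ∀ ψ : K₁ →+* ℂ, (ψ θ).im = 0 ∧ 0 < (t : ℝ) + (ψ θ).re

lemma real_of_root {θ : K₁} {t : ℕ} (hpos : TotPos θ t) {w : ℂ}
    (hw : w ∈ (polyT θ t).rootSet ℂ) : starRingEnd ℂ w = w := by
  obtain ⟨ψ, hψ⟩ := root_sq hw
  obtain ⟨h1, h2⟩ := hpos ψ
  rw [Complex.conj_eq_iff_im]
  refine im_zero_of_sq h2 ?_
  rw [hψ]
  apply Complex.ext
  · simp
  · simp [h1]

/-- Two homomorphisms which agree on generators agree. -/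
lemma agree_of_gens (F : IntermediateField ℚ ℂ) (f1 f2 : F →+* ℂ) (A : IntermediateField ℚ ℂ)
    (S : Set ℂ) (hF : F ≤ A ⊔ IntermediateField.adjoin ℚ S)
    (hA : ∀ z, z ∈ A → ∃ h : z ∈ F, f1 ⟨z, h⟩ = f2 ⟨z, h⟩)
    (hS : ∀ z, z ∈ S → ∃ h : z ∈ F, f1 ⟨z, h⟩ = f2 ⟨z, h⟩) : f1 = f2 := by
  let T : IntermediateField ℚ ℂ :=
    { carrier := {z | ∃ h : z ∈ F, f1 ⟨z, h⟩ = f2 ⟨z, h⟩}
      mul_mem' := by
        rintro a b ⟨ha, ha'⟩ ⟨hb, hb'⟩
        refine ⟨F.mul_mem ha hb, ?_⟩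
        have : (⟨a * b, F.mul_mem ha hb⟩ : F) = ⟨a, ha⟩ * ⟨b, hb⟩ := rfl
        rw [this, map_mul, map_mul, ha', hb']
      add_mem' := by
        rintro a b ⟨ha, ha'⟩ ⟨hb, hb'⟩
        refine ⟨F.add_mem ha hb, ?_⟩
        have : (⟨a + b, F.add_mem ha hb⟩ : F) = ⟨a, ha⟩ + ⟨b, hb⟩ := rfl
        rw [this, map_add, map_add, ha', hb']
      algebraMap_mem' := by
        intro r
        refine ⟨F.algebraMap_mem r, ?_⟩
        have : (⟨algebraMap ℚ ℂ r, F.algebraMap_mem r⟩ : F) = (r : F) := by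
          apply Subtype.ext
          simp
        rw [this, map_ratCast, map_ratCast]
      inv_mem' := by
        rintro a ⟨ha, ha'⟩
        refine ⟨F.inv_mem ha, ?_⟩
        have : (⟨a⁻¹, F.inv_mem ha⟩ : F) = (⟨a, ha⟩ : F)⁻¹ := rfl
        rw [this, map_inv₀, map_inv₀, ha'] }
  have hT : F ≤ T := by
    refine hF.trans (sup_le (fun z hz => hA z hz) ?_)
    rw [IntermediateField.adjoin_le_iff]
    exact fun z hz => hS z hz
  ext z
  obtain ⟨h, h'⟩ := hT z.2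
  exact h'

include hc in
lemma conj_all (j : K₁ →ₐ[ℚ] ℂ) {θ : K₁} {t : ℕ} (hpos : TotPos θ t)
    (c₂ : bigF j θ t ≃ₐ[ℚ] bigF j θ t)
    (hc₂ : ∀ z : bigF j θ t, ((c₂ z : bigF j θ t) : ℂ) = starRingEnd ℂ (z : ℂ))
    (φ : bigF j θ t →+* ℂ) (x : bigF j θ t) : φ (c₂ x) = starRingEnd ℂ (φ x) := by
  have key : φ.comp (c₂ : bigF j θ t →+* bigF j θ t) = (starRingEnd ℂ).comp φ := by
    refine agree_of_gens (bigF j θ t) _ _ j.fieldRange ((polyT θ t).rootSet ℂ) le_rfl ?_ ?_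
    · rintro z ⟨a, rfl⟩
      have hz : (j a : ℂ) ∈ bigF j θ t := (le_sup_left : j.fieldRange ≤ bigF j θ t) ⟨a, rfl⟩
      refine ⟨hz, ?_⟩
      have h1 := hc (φ.comp (iotaF j θ t)) a
      have h2 : c₂ ⟨j a, hz⟩ = iotaF j θ t (c₁ a) := by
        apply Subtype.ext
        rw [hc₂, iotaF_coe]
        exact (hc (j : K₁ →+* ℂ) a).symm
      show φ (c₂ ⟨j a, hz⟩) = starRingEnd ℂ (φ ⟨j a, hz⟩)
      rw [h2]
      exact h1
    · intro w hw
      have hwF : w ∈ bigF j θ t :=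
        (le_sup_right : IntermediateField.adjoin ℚ ((polyT θ t).rootSet ℂ) ≤
        bigF j θ t) (IntermediateField.subset_adjoin _ _ hw)
      refine ⟨hwF, ?_⟩
      have h1 : c₂ ⟨w, hwF⟩ = ⟨w, hwF⟩ := by
        apply Subtype.ext
        rw [hc₂]
        exact real_of_root hpos hw
      have h2 : φ ⟨w, hwF⟩ ∈ (polyT θ t).rootSet ℂ := by
        rw [Polynomial.mem_rootSet'] at hw ⊢
        refine ⟨hw.1, ?_⟩
        have h3 : aeval (⟨w, hwF⟩ : bigF j θ t) (polyT θ t) = 0 := by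
          apply Subtype.ext
          have h4 := Polynomial.aeval_algHom_apply (bigF j θ t).val (⟨w, hwF⟩ : bigF j θ t)
            (polyT θ t)
          have h5 : (bigF j θ t).val (⟨w, hwF⟩ : bigF j θ t) = w := rfl
          rw [h5, hw.2] at h4
          exact h4.symm
        have h6 := Polynomial.hom_eval₂ (polyT θ t) (algebraMap ℚ (bigF j θ t)) φ
          (⟨w, hwF⟩ : bigF j θ t)
        rw [← Polynomial.aeval_def, h3, map_zero] at h6
        have h7 : φ.comp (algebraMap ℚ (bigF j θ t)) = algebraMap ℚ ℂ := RingHom.ext_rat _ _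
        rw [h7] at h6
        exact h6.symm
      show φ (c₂ ⟨w, hwF⟩) = starRingEnd ℂ (φ ⟨w, hwF⟩)
      rw [h1]
      exact (real_of_root hpos h2).symm
  exact congrArg (fun f : bigF j θ t →+* ℂ => f x) key

end conj

end Pool.Agent.Q271.CM
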