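import Pool.Agent.Q271.CM.Pr

/-!
# Types of a Galois CM field which contains an imaginary quadratic field
-/

open scoped Classical
open Finset

set_option linter.unusedSectionVars false
set_option linter.unusedVariables false

namespace Pool.Agent.Q271.CM

open Q264.CM

attribute [local instance] instAct

/-- For a CM type `Φ` of `K` the number of the embeddings in `Φ` whose restriction to `K0` is not the
inclusion of `K0`; the type has signature `(n - r, r)` with respect to `K0` if this number is `r`. -/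
noncomputable def sig {k K : Type} [Field k] [Field K] [Algebra k K] [FiniteDimensional k K]
    (K0 : IntermediateField k K) (Φ : Finset (Emb (⊤ : IntermediateField k K))) : ℕ :=
  #(Φ.filter fun φ => ∃ x : K, x ∈ K0 ∧ φ ⟨x, IntermediateField.mem_top⟩ ≠ x)

section

variable {K : Type} [Field K] [NumberField K]
variable {c : K ≃ₐ[ℚ] K} (hc : ∀ (φ : K →+* ℂ) (x : K), φ (c x) = starRingEnd ℂ (φ x))

lemma isCMSub_top (hc1 : c ≠ 1) : IsCMSub c (⊤ : IntermediateField ℚ K) := by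
  by_contra h
  apply hc1
  ext x
  by_contra h2
  exact h ⟨x, IntermediateField.mem_top, h2⟩

variable [IsGalois ℚ K]

include hc in
lemma D_one (hc1 : c ≠ 1) {Z : ((K ≃ₐ[ℚ] K) → ℚ) →ₗ[ℚ] ℝ}
    (H : Heights c Z) (L : ((K ≃ₐ[ℚ] K) → ℚ) →ₗ[ℚ] ℝ)
    (hL : ∀ E : IntermediateField ℚ K, IsCMSub c E →
      ∀ Φ : Finset (Emb E), IsType c Φ → ∀ ψ : Emb E, H.ht E ψ Φ = L (a0 E ψ Φ)) :
    (L - Z) 1 = 0 := by
  have htop := isCMSub_top hc1
  obtain ⟨Φ, hΦ⟩ := types_nonempty (X := Emb (⊤ : IntermediateField ℚ K)) (c_sq hc)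
    (free_of (c_cen hc) htop)
  let ψ : Emb (⊤ : IntermediateField ℚ K) := (⊤ : IntermediateField ℚ K).val
  have h1 := H.conj ⊤ htop Φ hΦ ψ
  rw [hL ⊤ htop Φ hΦ, hL ⊤ htop Φ hΦ, ← map_add] at h1
  have h2 : a0 ⊤ ψ Φ + a0 ⊤ (act c ψ) Φ = 1 := by
    ext g
    exact aa_c_smul (c_sq hc) (c_cen hc) hΦ ψ g
  rw [h2] at h1
  rw [LinearMap.sub_apply, h1, sub_self]

lemma notMem_fixing {K0 : IntermediateField ℚ K} (hK0 : IsCMSub c K0) :
    c ∉ K0.fixingSubgroup := by
  intro h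
  rw [IntermediateField.mem_fixingSubgroup_iff] at h
  obtain ⟨x, hx, hx2⟩ := hK0
  exact hx2 (h x hx)

lemma isAbelianExt_of_degree {K0 : IntermediateField ℚ K} (h2 : degree K0 = 2) :
    IsAbelianExt K0 := by
  have hidx := index_fixing h2
  have hn : K0.fixingSubgroup.Normal := Subgroup.normal_of_index_eq_two hidx
  have h3 : IsGalois ℚ (IntermediateField.fixedField K0.fixingSubgroup) :=
    IsGalois.of_fixedField_normal_subgroup _
  rw [IsGalois.fixedField_fixingSubgroup] at h3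
  refine ⟨h3, fun σ τ => ?_⟩
  have hcard : Nat.card (K0 ≃ₐ[ℚ] K0) = 2 := by
    rw [IsGalois.card_aut_eq_finrank]; exact h2
  have : Fact (Nat.Prime 2) := ⟨Nat.prime_two⟩
  have hcyc : IsCyclic (K0 ≃ₐ[ℚ] K0) := isCyclic_of_prime_card hcard
  obtain ⟨g, hg⟩ := hcyc.exists_generator
  obtain ⟨a, rfl⟩ := hg σ
  obtain ⟨b, rfl⟩ := hg τ
  exact zpow_mul_comm g a b

lemma emb_K0 {K0 : IntermediateField ℚ K} (h2 : degree K0 = 2) (hK0 : IsCMSub c K0)
    (ψ : Emb K0) : ψ = K0.val ∨ ψ = c • (K0.val : Emb K0) := by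
  have hidx := index_fixing h2
  obtain ⟨g, rfl⟩ := exists_ext ψ
  by_cases hg : g ∈ K0.fixingSubgroup
  · left; exact (stab_iff g).2 hg
  · right
    have h3 : c⁻¹ * g ∈ K0.fixingSubgroup := by
      rw [Subgroup.mul_mem_iff_of_index_two hidx, inv_mem_iff]
      have := notMem_fixing hK0
      tauto
    have h4 := (stab_iff (c⁻¹ * g)).2 h3
    rw [mul_smul, inv_smul_eq_iff] at h4
    exact h4

include hc in
lemma sum_HF {Z : ((K ≃ₐ[ℚ] K) → ℚ) →ₗ[ℚ] ℝ}
    (H : Heights c Z) (L : ((K ≃ₐ[ℚ] K) → ℚ) →ₗ[ℚ] ℝ)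
    (hL : ∀ E : IntermediateField ℚ K, IsCMSub c E →
      ∀ Φ : Finset (Emb E), IsType c Φ → ∀ ψ : Emb E, H.ht E ψ Φ = L (a0 E ψ Φ))
    {K0 : IntermediateField ℚ K} (h2 : degree K0 = 2) (hK0 : IsCMSub c K0) :
    ∑ g ∈ HF K0.fixingSubgroup, Ev (L - Z) g = 0 := by
  have hfree := free_of (c_cen hc) hK0
  have hT : IsType c ({K0.val} : Finset (Emb K0)) := by
    intro ψ
    rw [Finset.mem_singleton, Finset.mem_singleton]
    change ψ = K0.val ↔ ¬ c • ψ = K0.val
    constructor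
    · rintro rfl
      exact hfree _
    · intro h
      rcases emb_K0 h2 hK0 ψ with h3 | h3
      · exact h3
      · exfalso
        apply h
        rw [h3, smul_smul, c_sq hc, one_smul]
  have h1 := H.abelian K0 hK0 (isAbelianExt_of_degree h2) _ hT K0.val
  rw [hL K0 hK0 _ hT] at h1
  have h3 : a0 K0 K0.val {K0.val} = ∑ g ∈ HF K0.fixingSubgroup, AA g := by
    have h4 := aa_AA (G := K ≃ₐ[ℚ] K) (K0.val : Emb K0) 1 {K0.val}
    rw [one_smul] at h4
    rw [show a0 K0 K0.val {K0.val} = (aa (K0.val : Emb K0) {K0.val} : (K ≃ₐ[ℚ] K) → ℚ) from rfl, h4]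
    apply Finset.sum_congr
    · ext g
      simp only [mem_filter, mem_univ, true_and, mem_singleton, mem_HF]
      exact stab_iff g
    · intro g _
      rw [inv_one, mul_one]
  have h5 : (L - Z) (∑ g ∈ HF K0.fixingSubgroup, AA g) = 0 := by
    rw [← h3, LinearMap.sub_apply, h1, sub_self]
  rw [map_sum] at h5
  exact h5

/-- the embedding of `K` given by an automorphism -/
noncomputable def ev0 (b : K ≃ₐ[ℚ] K) : Emb (⊤ : IntermediateField ℚ K) :=
  b • ((⊤ : IntermediateField ℚ K).val : Emb (⊤ : IntermediateField ℚ K))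

lemma ev0_apply (b : K ≃ₐ[ℚ] K) (x : K) : ev0 b ⟨x, IntermediateField.mem_top⟩ = b x := rfl

lemma ev0_inj : Function.Injective (ev0 : (K ≃ₐ[ℚ] K) → _) := by
  intro a b h
  ext x
  rw [← ev0_apply a, ← ev0_apply b, h]

lemma ev0_surj : Function.Surjective (ev0 : (K ≃ₐ[ℚ] K) → _) := fun ψ => exists_ext ψ

lemma smul_ev0 (a b : K ≃ₐ[ℚ] K) : a • ev0 b = ev0 (a * b) := by
  unfold ev0
  rw [mul_smul]

/-- the type given by a set of automorphisms -/
noncomputable def img (S : Finset (K ≃ₐ[ℚ] K)) : Finset (Emb (⊤ : IntermediateField ℚ K)) :=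
  S.image ev0

lemma ev0_mem {S : Finset (K ≃ₐ[ℚ] K)} {b : K ≃ₐ[ℚ] K} : ev0 b ∈ img S ↔ b ∈ S := by
  unfold img
  rw [Finset.mem_image]
  constructor
  · rintro ⟨a, ha, h⟩
    rw [← ev0_inj h]; exact ha
  · exact fun h => ⟨b, h, rfl⟩

lemma img_isType {S : Finset (K ≃ₐ[ℚ] K)} (hS : ∀ g, g ∈ S ↔ c * g ∉ S) : IsType c (img S) := by
  intro ψ
  obtain ⟨b, rfl⟩ := ev0_surj ψ
  change ev0 b ∈ img S ↔ c • ev0 b ∉ img S
  rw [smul_ev0, ev0_mem, ev0_mem]
  exact hS b

lemma sig_img (K0 : IntermediateField ℚ K) (S : Finset (K ≃ₐ[ℚ] K)) :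
    sig K0 (img S) = #(S.filter fun g => g ∉ K0.fixingSubgroup) := by
  unfold sig img
  rw [Finset.filter_image, Finset.card_image_of_injective _ ev0_inj]
  congr 1
  apply Finset.filter_congr
  intro b _
  rw [IntermediateField.mem_fixingSubgroup_iff]
  simp only [ev0_apply]
  constructor
  · rintro ⟨x, hx, h⟩ h2
    exact h (h2 x hx)
  · intro h
    by_contra h2
    exact h fun x hx => by
      by_contra h3
      exact h2 ⟨x, hx, h3⟩

lemma a0_img (S : Finset (K ≃ₐ[ℚ] K)) (a : K ≃ₐ[ℚ] K) :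
    a0 ⊤ (ev0 a) (img S) = ∑ b ∈ S, AA (b * a⁻¹) := by
  have h4 := aa_AA (G := K ≃ₐ[ℚ] K)
    ((⊤ : IntermediateField ℚ K).val : Emb (⊤ : IntermediateField ℚ K)) a (img S)
  rw [show a0 ⊤ (ev0 a) (img S) = (aa (ev0 a) (img S) : (K ≃ₐ[ℚ] K) → ℚ) from rfl]
  refine h4.trans ?_
  apply Finset.sum_congr
  · ext g
    simp only [mem_filter, mem_univ, true_and]
    exact ev0_mem
  · intro g _
    rfl

lemma card_HF {K0 : IntermediateField ℚ K} (h2 : degree K0 = 2) :
    2 * #(HF K0.fixingSubgroup) = Module.finrank ℚ K := by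
  have hidx := index_fixing h2
  have h1 := K0.fixingSubgroup.card_mul_index
  rw [hidx, IsGalois.card_aut_eq_finrank] at h1
  have h3 : #(HF K0.fixingSubgroup) = Nat.card K0.fixingSubgroup := by
    unfold HF
    rw [Nat.card_eq_fintype_card, Fintype.card_subtype]
  rw [h3, mul_comm]
  exact h1

end

end Pool.Agent.Q271.CM
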