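import Pool.Agent.Q271.CM.Ev

/-!
# Signatures of types: sums over the type
-/

open scoped Classical
open Finset

set_option linter.unusedSectionVars false
set_option linter.unusedVariables false

namespace Pool.Agent.Q271.CM

open Q264.CM

variable {G : Type*} [Group G] [Fintype G]
variable {c : G} (hc2 : c * c = 1) (hcen : ∀ g : G, c * g = g * c)
  {H : Subgroup G} (hH : H.index = 2) (hcH : c ∉ H)

/-- the difference of the values at `u` and `c u` -/
noncomputable def dd (E : G → ℝ) (c u : G) : ℝ := E u - E (c * u)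

include hc2 in
lemma dd_c (E : G → ℝ) (u : G) : dd E c (c * u) = - dd E c u := by
  unfold dd
  rw [← mul_assoc, hc2, one_mul]
  ring

include hc2 hH hcH in
lemma sum_shift {E : G → ℝ} (hE : ∑ g ∈ HF H, E g = 0) (hG : ∑ g : G, E g = 0) (a : G) :
    ∑ b ∈ HF H, E (b * a⁻¹) = 0 := by
  by_cases ha : a ∈ H
  · rw [← hE]
    refine Finset.sum_bij' (fun b _ => b * a⁻¹) (fun b _ => b * a) ?_ ?_ ?_ ?_ ?_
    · intro b hb
      exact mem_HF.2 (H.mul_mem (mem_HF.1 hb) (H.inv_mem ha))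
    · intro b hb
      exact mem_HF.2 (H.mul_mem (mem_HF.1 hb) ha)
    · intro b _; simp
    · intro b _; simp
    · intro b _; rfl
  · have h1 : ∑ b ∈ HF H, E (b * a⁻¹) = ∑ g ∈ univ.filter (fun g => g ∉ H), E g := by
      have h3 : ∀ x y : G, x ∈ H → y ∉ H → x * y ∉ H := by
        intro x y hx hy h
        rw [Subgroup.mul_mem_iff_of_index_two hH] at h
        tauto
      have h4 : ∀ x y : G, x ∉ H → y ∉ H → x * y ∈ H := by
        intro x y hx hy
        rw [Subgroup.mul_mem_iff_of_index_two hH]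
        tauto
      refine Finset.sum_bij' (fun b _ => b * a⁻¹) (fun b _ => b * a) ?_ ?_ ?_ ?_ ?_
      · intro b hb
        simp only [mem_filter, mem_univ, true_and]
        exact h3 b _ (mem_HF.1 hb) (fun h => ha (by simpa using H.inv_mem h))
      · intro b hb
        simp only [mem_filter, mem_univ, true_and] at hb
        exact mem_HF.2 (h4 b a hb ha)
      · intro b _; simp
      · intro b _; simp
      · intro b _; rfl
    have h2 := Finset.sum_filter_add_sum_filter_not (univ : Finset G) (fun g => g ∈ H) E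
    rw [hG] at h2
    rw [h1]
    have h5 : ∑ g ∈ univ.filter (fun g => g ∈ H), E g = 0 := hE
    linarith

include hc2 hcen hH hcH in
lemma sum_dd_shift {E : G → ℝ} (hE : ∑ g ∈ HF H, E g = 0) (hG : ∑ g : G, E g = 0) {t : G}
    (ht : t ∈ H) : ∑ a ∈ HF H, dd E c (t * a⁻¹) = 0 := by
  have h1 : ∑ a ∈ HF H, dd E c (t * a⁻¹) = ∑ u ∈ HF H, dd E c u := by
    refine Finset.sum_bij' (fun a _ => t * a⁻¹) (fun a _ => a⁻¹ * t) ?_ ?_ ?_ ?_ ?_
    · intro b hb
      exact mem_HF.2 (H.mul_mem ht (H.inv_mem (mem_HF.1 hb)))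
    · intro b hb
      exact mem_HF.2 (H.mul_mem (H.inv_mem (mem_HF.1 hb)) ht)
    · intro b _; simp
    · intro b _; simp
    · intro b _; rfl
  have h2 := sum_shift hc2 hH hcH hE hG c
  rw [h1]
  unfold dd
  rw [sum_sub_distrib, hE]
  have h3 : ∀ b : G, b * c⁻¹ = c * b := by
    intro b
    rw [inv_eq_of_mul_eq_one_right hc2, hcen]
  simp_rw [h3] at h2
  rw [h2, sub_zero]

include hc2 hcen hH hcH in
/-- the double sum over a type of one signature -/
lemma double_sum {E : G → ℝ} (hE : ∑ g ∈ HF H, E g = 0) (hG : ∑ g : G, E g = 0) {T : Finset G}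
    (hT : ∀ t ∈ T, t ∈ H) : ∑ a ∈ typ c H T, ∑ b ∈ typ c H T, E (b * a⁻¹) =
      2 * ∑ t ∈ T, ∑ s ∈ T, dd E c (t * s⁻¹) := by
  have h1 : ∀ a : G, ∑ b ∈ typ c H T, E (b * a⁻¹) = - ∑ t ∈ T, dd E c (t * a⁻¹) := by
    intro a
    have h2 := sum_typ hc2 hH hcH hT (fun b => E (b * a⁻¹))
    rw [sum_shift hc2 hH hcH hE hG a] at h2
    rw [h2, zero_sub]
    congr 1
    apply Finset.sum_congr rfl
    intro t _
    unfold dd
    rw [mul_assoc]
  simp_rw [h1]
  rw [Finset.sum_neg_distrib, Finset.sum_comm]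
  have h3 : ∀ t ∈ T, ∑ a ∈ typ c H T, dd E c (t * a⁻¹) = - 2 * ∑ s ∈ T, dd E c (t * s⁻¹) := by
    intro t ht
    have h2 := sum_typ hc2 hH hcH hT (fun a => dd E c (t * a⁻¹))
    rw [sum_dd_shift hc2 hcen hH hcH hE hG (hT t ht)] at h2
    rw [h2, zero_sub, ← Finset.sum_neg_distrib, Finset.mul_sum]
    apply Finset.sum_congr rfl
    intro s _
    have h4 : t * (c * s)⁻¹ = c * (t * s⁻¹) := by
      rw [mul_inv_rev, inv_eq_of_mul_eq_one_right hc2, ← mul_assoc, ← hcen]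
    rw [h4, dd_c hc2]
    ring
  rw [Finset.sum_congr rfl h3, ← Finset.mul_sum]
  ring

include hc2 hcen hH hcH in
/-- One signature, for sums over types. -/
theorem pair_sig {E : G → ℝ} (hE : ∑ g ∈ HF H, E g = 0) (hG : ∑ g : G, E g = 0)
    (h1c : E 1 = E c) {r : ℕ} (hr0 : 2 ≤ r) (hr : r + 2 ≤ #(HF H))
    (h : ∀ S : Finset G, (∀ g, g ∈ S ↔ c * g ∉ S) → #(S.filter fun g => g ∉ H) = r →
      ∑ a ∈ S, ∑ b ∈ S, E (b * a⁻¹) = 0) : ∀ u, dd E c u + dd E c u⁻¹ = 0 := by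
  set w : G → G → ℝ := fun x y => dd E c (x * y⁻¹) + dd E c (y * x⁻¹) with hw
  have hsym : ∀ x y, w x y = w y x := fun x y => add_comm _ _
  have hone : dd E c 1 = 0 := by
    unfold dd; rw [mul_one, h1c, sub_self]
  have key := zero_of_pairs (H := HF H) hsym hr0 hr (by
    intro T hT hTc
    have hT' : ∀ t ∈ T, t ∈ H := fun t ht => mem_HF.1 (hT ht)
    have h2 := h (typ c H T) (typ_isType hc2 hH hcH hT')
      (by rw [typ_filter hc2 hH hcH hT', hTc])
    rw [double_sum hc2 hcen hH hcH hE hG hT'] at h2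
    have h3 : ∑ t ∈ T, ∑ s ∈ T, dd E c (t * s⁻¹) = 0 := by linarith
    have h4 : ∑ t ∈ T, ∑ s ∈ T, dd E c (s * t⁻¹) = 0 := by rw [Finset.sum_comm]; exact h3
    have h5 : ∀ x ∈ T, ∑ y ∈ T.erase x, w x y = ∑ y ∈ T, w x y := by
      intro x hx
      have h6 : w x x = 0 := by
        simp only [hw, mul_inv_cancel, hone, add_zero]
      rw [← Finset.add_sum_erase T (w x) hx, h6, zero_add]
    unfold pairs
    rw [Finset.sum_congr rfl h5]
    simp only [hw]
    simp_rw [Finset.sum_add_distrib]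
    rw [h3, h4, add_zero])
  have key2 : ∀ u ∈ H, dd E c u + dd E c u⁻¹ = 0 := by
    intro u hu
    by_cases hu1 : u = 1
    · rw [hu1, inv_one, hone, add_zero]
    · have := key u (mem_HF.2 hu) 1 (mem_HF.2 H.one_mem) hu1
      simp only [hw, inv_one, mul_one, one_mul] at this
      exact this
  intro u
  by_cases hu : u ∈ H
  · exact key2 u hu
  · have h2 := key2 (c * u) ((mem_iff_c hH hcH u).2 hu)
    rw [dd_c hc2] at h2
    have h3 : (c * u)⁻¹ = c * u⁻¹ := by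
      rw [mul_inv_rev, inv_eq_of_mul_eq_one_right hc2, ← hcen]
    rw [h3, dd_c hc2] at h2
    linarith

include hc2 hcen in
theorem D_sym_zero {D : (G → ℚ) →ₗ[ℚ] ℝ} (h1 : D 1 = 0)
    (h : ∀ u, dd (Ev D) c u + dd (Ev D) c u⁻¹ = 0) (f : G → ℚ)
    (hf : ∀ x g, f (x * g * x⁻¹) = f g) (hs : ∀ g, f g⁻¹ = f g) (κ : ℚ)
    (hκ : ∀ g, f g + f (c * g) = 2 * κ) : D f = 0 := by
  have e1 := D_odd D hc2 h1 f hf κ hκ
  have e2 : ∑ u : G, ((f u - κ : ℚ) : ℝ) * (Ev D u - Ev D (c * u)) / 2 =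
      ∑ u : G, ((f u - κ : ℚ) : ℝ) * (Ev D u⁻¹ - Ev D (c * u⁻¹)) / 2 := by
    refine Fintype.sum_equiv (Equiv.inv G) _ _ fun u => ?_
    rw [Equiv.inv_apply, inv_inv, hs]
  have e3 : 2 * D f = ∑ u : G, ((f u - κ : ℚ) : ℝ) * (dd (Ev D) c u + dd (Ev D) c u⁻¹) / 2 := by
    have : 2 * D f = D f + D f := by ring
    rw [this]
    nth_rewrite 2 [e1]
    rw [e2]
    nth_rewrite 1 [e1]
    rw [← Finset.sum_add_distrib]
    apply Finset.sum_congr rfl
    intro u _
    unfold dd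
    ring
  have e4 : ∑ u : G, ((f u - κ : ℚ) : ℝ) * (dd (Ev D) c u + dd (Ev D) c u⁻¹) / 2 = 0 := by
    apply Finset.sum_eq_zero
    intro u _
    rw [h u, mul_zero, zero_div]
  rw [e4] at e3
  linarith

end Pool.Agent.Q271.CM
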