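import Pool.Agent.Q271.CM.Sq

/-!
# Restriction of automorphisms and sizes of conjugacy classes
-/

open scoped Classical
open Finset

set_option linter.unusedSectionVars false
set_option linter.unusedVariables false

namespace Pool.Agent.Q271.CM

section grp

variable {G₁ G₂ : Type*} [Group G₁] [Group G₂] [Finite G₁] [Finite G₂]

/-- The number of conjugates. -/
noncomputable def ncl {G : Type*} [Group G] (y : G) : ℕ := Nat.card {b : G // IsConj y b}

lemma ncl_pos {G : Type*} [Group G] [Finite G] (y : G) : 1 ≤ ncl y := by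
  unfold ncl
  have : Nonempty {b : G // IsConj y b} := ⟨⟨y, IsConj.refl y⟩⟩
  exact Nat.card_pos

lemma ncl_map (π : G₂ →* G₁) (hπ : Function.Surjective π) (y : G₂) : ncl (π y) ≤ ncl y := by
  unfold ncl
  refine Nat.card_le_card_of_surjective
    (fun b : {b : G₂ // IsConj y b} => (⟨π b.1, π.map_isConj b.2⟩ : {b : G₁ // IsConj (π y) b})) ?_
  rintro ⟨b, hb⟩
  obtain ⟨g, rfl⟩ := isConj_iff.1 hb
  obtain ⟨g', rfl⟩ := hπ g
  exact ⟨⟨g' * y * g'⁻¹, isConj_iff.2 ⟨g', rfl⟩⟩, by simp⟩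

lemma ncl_double (π : G₂ →* G₁) (hπ : Function.Surjective π) {y v : G₂} (hv : π v = 1)
    (hvy : v * y ≠ y * v) : 2 * ncl (π y) ≤ ncl y := by
  unfold ncl
  have hch : ∀ b : {b : G₁ // IsConj (π y) b}, ∃ g : G₂, π g * π y * (π g)⁻¹ = b.1 := by
    rintro ⟨b, hb⟩
    obtain ⟨g, rfl⟩ := isConj_iff.1 hb
    obtain ⟨g', rfl⟩ := hπ g
    exact ⟨g', rfl⟩
  choose s hs using hch
  let w : Bool → G₂ := fun i => if i then v else 1
  have hw : ∀ i, π (w i) = 1 := by
    intro i
    cases i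
    · simp [w]
    · simp [w, hv]
  let f : Bool × {b : G₁ // IsConj (π y) b} → {b : G₂ // IsConj y b} :=
    fun p => ⟨(s p.2 * w p.1) * y * (s p.2 * w p.1)⁻¹, isConj_iff.2 ⟨_, rfl⟩⟩
  have hf : Function.Injective f := by
    rintro ⟨i, b⟩ ⟨i', b'⟩ h
    have h1 : (s b * w i) * y * (s b * w i)⁻¹ = (s b' * w i') * y * (s b' * w i')⁻¹ :=
      congrArg Subtype.val h
    have h2 := congrArg π h1
    simp only [map_mul, map_inv, hw, mul_one] at h2
    rw [hs, hs] at h2
    have h3 : b = b' := Subtype.ext h2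
    subst h3
    have h4 : w i * y * (w i)⁻¹ = w i' * y * (w i')⁻¹ := by
      have h5 : ∀ j, (s b * w j) * y * (s b * w j)⁻¹ = s b * (w j * y * (w j)⁻¹) * (s b)⁻¹ := by
        intro j; group
      rw [h5, h5] at h1
      exact mul_left_cancel (mul_right_cancel h1)
    have h6 : i = i' := by
      cases i <;> cases i'
      · rfl
      · exfalso
        simp only [w, Bool.false_eq_true, if_false, if_true, one_mul, inv_one, mul_one] at h4
        apply hvy
        rw [eq_mul_inv_iff_mul_eq] at h4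
        exact h4.symm
      · exfalso
        simp only [w, Bool.false_eq_true, if_false, if_true, one_mul, inv_one, mul_one] at h4
        apply hvy
        rw [mul_inv_eq_iff_eq_mul] at h4
        exact h4
      · rfl
    rw [h6]
  have h1 := Nat.card_le_card_of_injective f hf
  rw [Nat.card_prod, Nat.card_eq_fintype_card, Fintype.card_bool] at h1
  exact h1

end grp

section res

variable {K₁ K₂ : Type} [Field K₁] [NumberField K₁] [Field K₂] [NumberField K₂]
  [IsGalois ℚ K₁] [IsGalois ℚ K₂]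

lemma exists_res (ι : K₁ →+* K₂) : ∃ π : (K₂ ≃ₐ[ℚ] K₂) →* (K₁ ≃ₐ[ℚ] K₁),
    Function.Surjective π ∧ ∀ y z, ι (π y z) = y (ι z) := by
  let _ := ι.toAlgebra
  have : IsScalarTower ℚ K₁ K₂ := IsScalarTower.rat
  refine ⟨AlgEquiv.restrictNormalHom K₁, AlgEquiv.restrictNormalHom_surjective K₂, fun y z => ?_⟩
  exact AlgEquiv.restrictNormal_commutes y K₁ z

end res

section theta

variable {K₁ : Type} [Field K₁] [NumberField K₁] [IsGalois ℚ K₁] {c₁ : K₁ ≃ₐ[ℚ] K₁}

lemma exists_theta (hcc : c₁ * c₁ = 1) : ∃ θ : K₁, IsIntegral ℤ θ ∧ c₁ θ = θ ∧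
    ∀ x : K₁ ≃ₐ[ℚ] K₁, x ≠ 1 → x ≠ c₁ → x θ ≠ θ := by
  set F := IntermediateField.fixedField (Subgroup.zpowers c₁) with hF
  let pb := Field.powerBasisOfFiniteOfSeparable ℚ F
  have halg : IsAlgebraic ℤ ((pb.gen : F) : K₁) :=
    (IsFractionRing.isAlgebraic_iff ℤ ℚ K₁).2 (Algebra.IsAlgebraic.isAlgebraic _)
  obtain ⟨y, hy, hint⟩ := halg.exists_integral_multiple
  refine ⟨y • ((pb.gen : F) : K₁), hint, ?_, ?_⟩
  · rw [map_zsmul]
    congr 1
    exact (IntermediateField.mem_fixedField_iff _ _).1 pb.gen.2 c₁ (Subgroup.mem_zpowers c₁)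
  · intro x hx1 hxc h
    rw [map_zsmul] at h
    have h2 : x ((pb.gen : F) : K₁) = ((pb.gen : F) : K₁) := smul_right_injective K₁ hy h
    have h3 : ((x : K₁ →ₐ[ℚ] K₁).comp F.val) = F.val := pb.algHom_ext h2
    have h4 : x ∈ F.fixingSubgroup := by
      rw [IntermediateField.mem_fixingSubgroup_iff]
      intro z hz
      exact DFunLike.congr_fun h3 (⟨z, hz⟩ : F)
    rw [hF, IntermediateField.fixingSubgroup_fixedField, ← mem_powers_iff_mem_zpowers] at h4
    obtain ⟨m, hm⟩ := h4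
    simp only at hm
    rcases Nat.even_or_odd' m with ⟨j, rfl | rfl⟩
    · rw [pow_mul, pow_two, hcc, one_pow] at hm
      exact hx1 hm.symm
    · rw [pow_succ, pow_mul, pow_two, hcc, one_pow, one_mul] at hm
      exact hxc hm.symm

end theta

end Pool.Agent.Q271.CM
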