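import Pool.Agent.Q271.CM.Fld

/-!
# Subspaces of functions on the Galois group, without any hypothesis on heights

`K` is a CM field which is Galois over `ℚ`. The functions `a⁰_{E,ψ,Φ}` are rational functions on
`Gal(K/ℚ)`. We consider the rational subspaces `V` of the functions on `Gal(K/ℚ)` which contain the
functions of the averaged formula and of the abelian case (`HasKnown`).
-/

open scoped Classical
open Finset

set_option linter.unusedSectionVars false
set_option linter.unusedVariables false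

namespace Pool.Agent.Q271.CM

open Q264.CM

attribute [local instance] instAct

/-- The subspace `V` of the functions on `Gal(K/ℚ)` contains the constant function `1`, the sum of
`a⁰_{E,ψ,Φ}` over all CM types `Φ` of `E` and all `ψ ∈ Φ`, for every CM field `E` in `K`, and the
functions `a⁰_{E,ψ,Φ}` for the CM fields `E` in `K` which are abelian over `ℚ`. -/
structure HasKnown {K : Type} [Field K] [NumberField K] (c : K ≃ₐ[ℚ] K)
    (V : Submodule ℚ ((K ≃ₐ[ℚ] K) → ℚ)) : Prop where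
  one : (1 : (K ≃ₐ[ℚ] K) → ℚ) ∈ V
  average : ∀ E : IntermediateField ℚ K, IsCMSub c E →
    ∑ Φ : Finset (Emb E) with IsType c Φ, ∑ ψ ∈ Φ, a0 E ψ Φ ∈ V
  abelian : ∀ E : IntermediateField ℚ K, IsCMSub c E → IsAbelianExt E →
    ∀ Φ : Finset (Emb E), IsType c Φ → ∀ ψ : Emb E, a0 E ψ Φ ∈ V

section

variable {K : Type} [Field K] [NumberField K]
variable {c : K ≃ₐ[ℚ] K} (hc : ∀ (φ : K →+* ℂ) (x : K), φ (c x) = starRingEnd ℂ (φ x))

variable [IsGalois ℚ K]

/-- A functional which vanishes on `V`, as a system of heights for the functional `Z = 0`. -/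
noncomputable def mkH (V : Submodule ℚ ((K ≃ₐ[ℚ] K) → ℚ)) (hV : HasKnown c V)
    (lam : ((K ≃ₐ[ℚ] K) → ℚ) →ₗ[ℚ] ℚ) (hlam : V ≤ LinearMap.ker lam) :
    Heights c (0 : ((K ≃ₐ[ℚ] K) → ℚ) →ₗ[ℚ] ℝ) where
  ht := fun E ψ Φ => toReal lam (a0 E ψ Φ)
  linear := ⟨toReal lam, fun _ _ _ _ _ => rfl⟩
  conj := by
    intro E hE Φ hΦ ψ
    have h2 : a0 E ψ Φ + a0 E (act c ψ) Φ = 1 := by
      ext g
      exact aa_c_smul (c_sq hc) (c_cen hc) hΦ ψ g
    rw [← map_add, h2, toReal_apply, show lam 1 = 0 from hlam hV.one]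
    simp
  average := by
    intro E hE
    have h2 : lam (∑ Φ : Finset (Emb E) with IsType c Φ, ∑ ψ ∈ Φ, a0 E ψ Φ) = 0 :=
      hlam (hV.average E hE)
    have h5 : ((lam (∑ Φ : Finset (Emb E) with IsType c Φ, ∑ ψ ∈ Φ, a0 E ψ Φ) : ℚ) : ℝ) = 0 := by
      rw [h2]; simp
    rw [← toReal_apply, map_sum] at h5
    simp_rw [map_sum] at h5
    rw [h5]
    simp
  abelian := by
    intro E hE hab Φ hΦ ψ
    have h1 : lam (a0 E ψ Φ) = 0 := hlam (hV.abelian E hE hab Φ hΦ ψ)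
    rw [toReal_apply, h1]
    simp

lemma mkH_ht (V : Submodule ℚ ((K ≃ₐ[ℚ] K) → ℚ)) (hV : HasKnown c V)
    (lam : ((K ≃ₐ[ℚ] K) → ℚ) →ₗ[ℚ] ℚ) (hlam : V ≤ LinearMap.ker lam)
    (E : IntermediateField ℚ K) (ψ : Emb E) (Φ : Finset (Emb E)) :
    (mkH hc V hV lam hlam).ht E ψ Φ = ((lam (a0 E ψ Φ) : ℚ) : ℝ) := rfl

end

end Pool.Agent.Q271.CM
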