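import Mathlib

/-!
# Products of two conjugates of `t + θ` which are not squares
-/

open scoped Classical
open Finset

set_option linter.unusedSectionVars false
set_option linter.unusedVariables false

namespace Pool.Agent.Q271.CM

/-- Square roots of `(t + a)(t + b)` at two near places `t`. -/
lemma real_pair {a b B t t' k u u' : ℝ} (ha : |a| ≤ B) (hb : |b| ≤ B) (ht : t = t' + k)
    (hk : 1 ≤ k) (hD : 3 * k * B ≤ t' - B) (hD0 : 0 < t' - B) (hu : u ^ 2 = (t + a) * (t + b))
    (hu' : u' ^ 2 = (t' + a) * (t' + b)) (hs : 0 < u * u') : |(u - u') ^ 2 - k ^ 2| < 1 := by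
  have hB : 0 ≤ B := (abs_nonneg a).trans ha
  rw [abs_le] at ha hb
  set D := t' - B with hDdef
  set v := |u| with hv
  set v' := |u'| with hv'
  have e1 : (u - u') ^ 2 = (v - v') ^ 2 := by
    have h1 : u * u' = v * v' := by rw [hv, hv', ← abs_mul, abs_of_pos hs]
    have h2 : v ^ 2 = u ^ 2 := sq_abs u
    have h3 : v' ^ 2 = u' ^ 2 := sq_abs u'
    nlinarith
  have hv2 : v ^ 2 = (t + a) * (t + b) := by rw [hv, sq_abs, hu]
  have hv2' : v' ^ 2 = (t' + a) * (t' + b) := by rw [hv', sq_abs, hu']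
  have hvn : 0 ≤ v := abs_nonneg u
  have hvn' : 0 ≤ v' := abs_nonneg u'
  have hta : D ≤ t' + a := by linarith [ha.1]
  have htb : D ≤ t' + b := by linarith [hb.1]
  have hta2 : D ≤ t + a := by linarith
  have htb2 : D ≤ t + b := by linarith
  have hDv : D ≤ v := by
    have : D ^ 2 ≤ v ^ 2 := by rw [hv2]; nlinarith
    exact (pow_le_pow_iff_left₀ hD0.le hvn two_ne_zero).1 this
  have hDv' : D ≤ v' := by
    have : D ^ 2 ≤ v' ^ 2 := by rw [hv2']; nlinarith
    exact (pow_le_pow_iff_left₀ hD0.le hvn' two_ne_zero).1 this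
  set m := (a + b) / 2 with hm
  have hq : (t + m) ^ 2 - v ^ 2 = ((a - b) / 2) ^ 2 := by rw [hv2, hm]; ring
  have hq' : (t' + m) ^ 2 - v' ^ 2 = ((a - b) / 2) ^ 2 := by rw [hv2', hm]; ring
  have hqB : ((a - b) / 2) ^ 2 ≤ B ^ 2 := by
    have h1 : |(a - b) / 2| ≤ |B| := by
      rw [abs_of_nonneg hB, abs_le]; constructor <;> linarith [ha.1, ha.2, hb.1, hb.2]
    exact sq_le_sq.2 h1
  have hq0 : 0 ≤ ((a - b) / 2) ^ 2 := sq_nonneg _
  have hmt : 0 < t + m := by rw [hm]; linarith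
  have hmt' : 0 < t' + m := by rw [hm]; linarith
  have hle : v ≤ t + m := (pow_le_pow_iff_left₀ hvn hmt.le two_ne_zero).1 (by linarith)
  have hle' : v' ≤ t' + m := (pow_le_pow_iff_left₀ hvn' hmt'.le two_ne_zero).1 (by linarith)
  have h1 : (t + m - v) * D ≤ B ^ 2 := by
    have h2 : (t + m - v) * (t + m + v) ≤ B ^ 2 := by nlinarith
    have h3 : (t + m - v) * D ≤ (t + m - v) * (t + m + v) :=
      mul_le_mul_of_nonneg_left (by linarith) (by linarith)
    linarith
  have h1' : (t' + m - v') * D ≤ B ^ 2 := by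
    have h2 : (t' + m - v') * (t' + m + v') ≤ B ^ 2 := by nlinarith
    have h3 : (t' + m - v') * D ≤ (t' + m - v') * (t' + m + v') :=
      mul_le_mul_of_nonneg_left (by linarith) (by linarith)
    linarith
  set p := v + v' with hp
  set δ := (t + m) + (t' + m) - p with hδ
  have hδ0 : 0 ≤ δ := by rw [hδ, hp]; linarith
  have hδD : δ * D ≤ 2 * B ^ 2 := by
    have : δ * D = (t + m - v) * D + (t' + m - v') * D := by rw [hδ, hp]; ring
    linarith
  have hpD : D ≤ p := by rw [hp]; linarith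
  have hp0 : 0 < p := lt_of_lt_of_le hD0 hpD
  -- (v - v') p = k (p + δ)
  have h2 : (v - v') * p = k * (p + δ) := by
    have h3 : (v - v') * p = v ^ 2 - v' ^ 2 := by rw [hp]; ring
    rw [h3, hv2, hv2', hδ, hm, ht]
    ring
  set r := v - v' - k with hr
  have h3 : r * p = k * δ := by
    have : r * p = (v - v') * p - k * p := by rw [hr]; ring
    rw [this, h2]; ring
  have hk0 : 0 < k := by linarith
  have hr0 : 0 ≤ r := by
    by_contra h
    push Not at h
    have h4 : r * p < 0 := mul_neg_of_neg_of_pos h hp0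
    have h5 : 0 ≤ k * δ := by positivity
    linarith
  -- r D^2 ≤ 2 k B^2
  have h4 : r * D ≤ k * δ := by
    rw [← h3]; exact mul_le_mul_of_nonneg_left hpD hr0
  have h5 : r * (D * D) ≤ k * (2 * B ^ 2) := by
    calc r * (D * D) = (r * D) * D := by ring
      _ ≤ (k * δ) * D := mul_le_mul_of_nonneg_right h4 hD0.le
      _ = k * (δ * D) := by ring
      _ ≤ k * (2 * B ^ 2) := mul_le_mul_of_nonneg_left hδD hk0.le
  have h6 : (3 * k * B) * (3 * k * B) ≤ D * D := mul_self_le_mul_self (by positivity) hD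
  -- 4 k r ≤ 1
  have h7 : 4 * k * r ≤ 1 := by
    by_contra h
    push Not at h
    have h8 : D * D < 4 * k * r * (D * D) := lt_mul_of_one_lt_left (mul_pos hD0 hD0) h
    have h9 : 4 * k * r * (D * D) ≤ 4 * k * (k * (2 * B ^ 2)) := by
      calc 4 * k * r * (D * D) = 4 * k * (r * (D * D)) := by ring
        _ ≤ 4 * k * (k * (2 * B ^ 2)) := mul_le_mul_of_nonneg_left h5 (by positivity)
    have h10 : (3 * k * B) * (3 * k * B) = 4 * k * (k * (2 * B ^ 2)) + (k * B) ^ 2 := by ring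
    have h11 : 0 ≤ (k * B) ^ 2 := sq_nonneg _
    linarith
  have h12 : 4 * r ≤ 4 * k * r := by
    have : 1 * r ≤ k * r := mul_le_mul_of_nonneg_right hk hr0
    linarith
  have h8 : r ≤ 1 / 4 := by linarith
  have h13 : r ^ 2 ≤ 1 / 16 := by
    have : r ^ 2 ≤ (1 / 4) ^ 2 := pow_le_pow_left₀ hr0 h8 2
    norm_num at this
    linarith
  have h14 : 0 ≤ k * r := by positivity
  have h15 : 0 ≤ r ^ 2 := sq_nonneg r
  rw [e1]
  have h9 : (v - v') ^ 2 - k ^ 2 = 2 * (k * r) + r ^ 2 := by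
    have : v - v' = k + r := by rw [hr]; ring
    rw [this]; ring
  rw [h9, abs_lt]
  constructor <;> linarith

variable {K : Type*} [Field K] [NumberField K]

lemma eq_zero_of_norm_lt_one {x : K} (hx : IsIntegral ℤ x) (h : ∀ φ : K →+* ℂ, ‖φ x‖ < 1) :
    x = 0 := by
  by_contra hne
  obtain ⟨n, hn, h1⟩ := NumberField.Embeddings.pow_eq_one_of_norm_le_one K ℂ hne hx
    (fun φ => (h φ).le)
  obtain ⟨φ⟩ := (inferInstance : Nonempty (K →+* ℂ))
  have h2 := h φ
  have h3 : ‖φ x‖ ^ n = 1 := by rw [← norm_pow, ← map_pow, h1, map_one, norm_one]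
  have h4 : ‖φ x‖ ^ n < 1 := pow_lt_one₀ (norm_nonneg _) h2 hn.ne'
  linarith

lemma im_zero_of_sq {z : ℂ} {r : ℝ} (hr : 0 < r) (h : z ^ 2 = r) : z.im = 0 := by
  have h1 := congrArg Complex.re h
  have h2 := congrArg Complex.im h
  rw [pow_two, Complex.mul_re, Complex.ofReal_re] at h1
  rw [pow_two, Complex.mul_im, Complex.ofReal_im] at h2
  have h3 : z.re * z.im = 0 := by linarith
  rcases mul_eq_zero.1 h3 with h4 | h4
  · rw [h4] at h1
    nlinarith [mul_self_nonneg z.im]
  · exact h4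

/-- Two near squares of the form `(t + θ)(t + θ')` with square roots of the same signs. -/
lemma pair_eq {θ θ' : K} (hθ : IsIntegral ℤ θ) (hθ' : IsIntegral ℤ θ')
    {B : ℝ} (hr : ∀ φ : K →+* ℂ, (φ θ).im = 0 ∧ |(φ θ).re| ≤ B)
    (hr' : ∀ φ : K →+* ℂ, (φ θ').im = 0 ∧ |(φ θ').re| ≤ B) {t' k : ℕ} (hk : 1 ≤ k)
    (hD : 3 * (k : ℝ) * B ≤ t' - B) (hD0 : 0 < (t' : ℝ) - B) {s s' : K}
    (hs : s ^ 2 = (((t' + k : ℕ) : K) + θ) * (((t' + k : ℕ) : K) + θ'))
    (hs' : s' ^ 2 = ((t' : K) + θ) * ((t' : K) + θ'))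
    (hsign : ∀ φ : K →+* ℂ, (0 < (φ s).re ↔ 0 < (φ s').re)) : θ = θ' := by
  have hB : 0 ≤ B := by
    obtain ⟨φ⟩ := (inferInstance : Nonempty (K →+* ℂ))
    exact (abs_nonneg _).trans (hr φ).2
  have hkR : (1 : ℝ) ≤ k := by exact_mod_cast hk
  have key : ∀ φ : K →+* ℂ, ‖φ ((s - s') ^ 2 - (k : K) ^ 2)‖ < 1 := by
    intro φ
    obtain ⟨h1, h2⟩ := hr φ
    obtain ⟨h1', h2'⟩ := hr' φ
    set a := (φ θ).re with ha
    set b := (φ θ').re with hb
    have ea : φ θ = (a : ℂ) := by
      apply Complex.ext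
      · simp [ha]
      · simpa using h1
    have eb : φ θ' = (b : ℂ) := by
      apply Complex.ext
      · simp [hb]
      · simpa using h1'
    have e1 : (φ s) ^ 2 = (((t' + k + a) * (t' + k + b) : ℝ) : ℂ) := by
      rw [← map_pow, hs, map_mul, map_add, map_add, ea, eb, map_natCast]
      push_cast
      ring
    have e2 : (φ s') ^ 2 = (((t' + a) * (t' + b) : ℝ) : ℂ) := by
      rw [← map_pow, hs', map_mul, map_add, map_add, ea, eb, map_natCast]
      push_cast
      ring
    have h2a := abs_le.1 h2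
    have h2b := abs_le.1 h2'
    have p1 : (0 : ℝ) < (t' + k + a) * (t' + k + b) := by
      apply mul_pos <;> linarith
    have p2 : (0 : ℝ) < (t' + a) * (t' + b) := by
      apply mul_pos <;> linarith
    have i1 := im_zero_of_sq p1 e1
    have i2 := im_zero_of_sq p2 e2
    set u := (φ s).re with hu
    set u' := (φ s').re with hu'
    have eu : φ s = (u : ℂ) := by
      apply Complex.ext
      · simp [hu]
      · simpa using i1
    have eu' : φ s' = (u' : ℂ) := by
      apply Complex.ext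
      · simp [hu']
      · simpa using i2
    have f1 : u ^ 2 = ((t' + k : ℝ) + a) * ((t' + k : ℝ) + b) := by
      rw [eu] at e1
      exact_mod_cast e1
    have f2 : u' ^ 2 = ((t' : ℝ) + a) * ((t' : ℝ) + b) := by
      rw [eu'] at e2
      exact_mod_cast e2
    have hu0 : u ≠ 0 := by
      rintro h
      rw [h] at f1
      have : (0 : ℝ) ^ 2 = 0 := by norm_num
      rw [this] at f1
      linarith
    have hu0' : u' ≠ 0 := by
      rintro h
      rw [h] at f2
      have : (0 : ℝ) ^ 2 = 0 := by norm_num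
      rw [this] at f2
      linarith
    have hss : 0 < u * u' := by
      have h5 := hsign φ
      rw [← hu, ← hu'] at h5
      rcases lt_or_gt_of_ne hu0 with h6 | h6
      · have h7 : ¬ 0 < u' := fun h => by
          have := h5.2 h
          linarith
        have h8 : u' < 0 := lt_of_le_of_ne (not_lt.1 h7) hu0'
        exact mul_pos_of_neg_of_neg h6 h8
      · exact mul_pos h6 (h5.1 h6)
    have h9 := real_pair h2 h2' (t := (t' : ℝ) + k) rfl hkR hD hD0 f1 f2 hss
    have e3 : φ ((s - s') ^ 2 - (k : K) ^ 2) = (((u - u') ^ 2 - (k : ℝ) ^ 2 : ℝ) : ℂ) := by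
      rw [map_sub, map_pow, map_pow, map_sub, eu, eu', map_natCast]
      push_cast
      ring
    rw [e3, Complex.norm_real, Real.norm_eq_abs]
    exact h9
  have hnat : ∀ n : ℕ, IsIntegral ℤ ((n : ℕ) : K) := fun n => by
    have := isIntegral_algebraMap (R := ℤ) (A := K) (x := (n : ℤ))
    simpa using this
  have hsi : IsIntegral ℤ s := by
    apply IsIntegral.of_pow (n := 2) (by norm_num)
    rw [hs]
    exact ((hnat _).add hθ).mul ((hnat _).add hθ')
  have hsi' : IsIntegral ℤ s' := by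
    apply IsIntegral.of_pow (n := 2) (by norm_num)
    rw [hs']
    exact ((hnat _).add hθ).mul ((hnat _).add hθ')
  have hz := eq_zero_of_norm_lt_one (((hsi.sub hsi').pow 2).sub ((hnat k).pow 2)) key
  have hk0 : (k : K) ≠ 0 := by
    have : k ≠ 0 := by omega
    exact_mod_cast this
  push_cast at hs
  have hfac : (s - s' - k) * (s - s' + k) = 0 := by linear_combination hz
  have hfin : ∀ w : K, 2 * w = 2 * (t' : K) + θ + θ' → w ^ 2 = ((t' : K) + θ) * ((t' : K) + θ') →
      θ = θ' := by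
    intro w h1 h2
    have h3 : (θ - θ') ^ 2 = 0 := by
      have h4 : (2 * w) ^ 2 = 4 * (((t' : K) + θ) * ((t' : K) + θ')) := by rw [← h2]; ring
      rw [h1] at h4
      linear_combination h4
    exact sub_eq_zero.1 (pow_eq_zero_iff two_ne_zero |>.1 h3)
  rcases mul_eq_zero.1 hfac with h1 | h1
  · apply hfin s' _ hs'
    have h2 : s = s' + k := by linear_combination h1
    rw [h2] at hs
    have h3 : (k : K) * (2 * s' - (2 * (t' : K) + θ + θ')) = 0 := by
      linear_combination hs - hs'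
    rcases mul_eq_zero.1 h3 with h4 | h4
    · exact absurd h4 hk0
    · exact sub_eq_zero.1 h4
  · apply hfin (-s') _ (by rw [neg_sq]; exact hs')
    have h2 : s = s' - k := by linear_combination h1
    rw [h2] at hs
    have h3 : (k : K) * (2 * (-s') - (2 * (t' : K) + θ + θ')) = 0 := by
      linear_combination hs - hs'
    rcases mul_eq_zero.1 h3 with h4 | h4
    · exact absurd h4 hk0
    · exact sub_eq_zero.1 h4

/-- There are arbitrarily large `t` such that no `(t + θ)(t + x θ)` is a square. -/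
theorem exists_nonsquare {θ : K} (hθ : IsIntegral ℤ θ) (hreal : ∀ φ : K →+* ℂ, (φ θ).im = 0)
    (X : Finset (K ≃ₐ[ℚ] K)) (hX : ∀ x ∈ X, x θ ≠ θ) (T₀ : ℕ) :
    ∃ t : ℕ, T₀ ≤ t ∧ ∀ x ∈ X, ∀ s : K, s ^ 2 ≠ ((t : K) + θ) * ((t : K) + x θ) := by
  obtain ⟨B, hB⟩ : ∃ B : ℝ, ∀ φ : K →+* ℂ, ‖φ θ‖ ≤ B := by
    refine ⟨∑ φ : K →+* ℂ, ‖φ θ‖, fun φ => ?_⟩
    exact Finset.single_le_sum (f := fun φ : K →+* ℂ => ‖φ θ‖) (fun _ _ => norm_nonneg _)
      (Finset.mem_univ φ)
  have hB0 : 0 ≤ B := by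
    obtain ⟨φ⟩ := (inferInstance : Nonempty (K →+* ℂ))
    exact (norm_nonneg _).trans (hB φ)
  set N := Fintype.card (X × ((K →+* ℂ) → Prop)) with hN
  obtain ⟨M, hM⟩ := exists_nat_gt (3 * (N : ℝ) * B + B)
  by_contra hcon
  push Not at hcon
  have hch : ∀ i : Fin (N + 1), ∃ x ∈ X, ∃ s : K,
      s ^ 2 = (((T₀ + M + i : ℕ) : K) + θ) * (((T₀ + M + i : ℕ) : K) + x θ) :=
    fun i => hcon (T₀ + M + i) (by omega)
  choose x hx s hs using hch
  have hcard : Fintype.card (X × ((K →+* ℂ) → Prop)) < Fintype.card (Fin (N + 1)) := by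
    rw [Fintype.card_fin]; omega
  obtain ⟨i, j, hij, hf⟩ := Fintype.exists_ne_map_eq_of_card_lt
    (fun i : Fin (N + 1) => ((⟨x i, hx i⟩ : X), fun φ : K →+* ℂ => (0 < (φ (s i)).re))) hcard
  have hf1 : x i = x j := congrArg (fun z => (z.1 : K ≃ₐ[ℚ] K)) hf
  have hf2 : ∀ φ : K →+* ℂ, (0 < (φ (s i)).re ↔ 0 < (φ (s j)).re) := by
    intro φ
    have := congrArg Prod.snd hf
    exact iff_of_eq (congrFun this φ)
  have main : ∀ i j : Fin (N + 1), i < j → x i = x j →
      (∀ φ : K →+* ℂ, (0 < (φ (s i)).re ↔ 0 < (φ (s j)).re)) → False := by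
    intro i j hlt h1 h2
    have hk : 1 ≤ (j : ℕ) - i := by
      have : (i : ℕ) < j := hlt
      omega
    have hlt' : (i : ℕ) < j := hlt
    have hkN : (j : ℕ) - i ≤ N := by
      have := j.2
      omega
    have hkNR : (((j : ℕ) - i : ℕ) : ℝ) ≤ N := by exact_mod_cast hkN
    have hreal' : ∀ φ : K →+* ℂ, (φ θ).im = 0 ∧ |(φ θ).re| ≤ B := fun φ =>
      ⟨hreal φ, (Complex.abs_re_le_norm _).trans (hB φ)⟩
    have hTM : (3 * (N : ℝ) * B + B) < ((T₀ + M + i : ℕ) : ℝ) := by
      push_cast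
      have : (0 : ℝ) ≤ (T₀ : ℝ) := by positivity
      have : (0 : ℝ) ≤ ((i : ℕ) : ℝ) := by positivity
      linarith
    have h3 := pair_eq (K := K) (θ := θ) (θ' := x i θ) hθ
      (hθ.map ((x i).toAlgHom.restrictScalars ℤ)) (B := B) hreal'
      (fun φ => by
        have := hreal' (φ.comp ((x i : K ≃ₐ[ℚ] K) : K →+* K))
        exact this)
      (t' := T₀ + M + i) (k := (j : ℕ) - i) hk
      (by
        have h4 : 3 * (((j : ℕ) - i : ℕ) : ℝ) * B ≤ 3 * (N : ℝ) * B := by
          apply mul_le_mul_of_nonneg_right _ hB0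
          linarith
        linarith)
      (by
        have : 0 ≤ 3 * (N : ℝ) * B := by positivity
        linarith)
      (s := s j) (s' := s i)
      (by
        have h5 : T₀ + M + i + ((j : ℕ) - i) = T₀ + M + j := by omega
        rw [h5, h1]
        exact hs j)
      (hs i) (fun φ => (h2 φ).symm)
    exact hX (x i) (hx i) h3.symm
  rcases lt_or_gt_of_ne hij with h | h
  · exact main i j h hf1 hf2
  · exact main j i h hf1.symm (fun φ => (hf2 φ).symm)

end Pool.Agent.Q271.CM
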