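import Pool.Agent.Q271.CM.Ext
import Pool.Agent.Q271.CM.Base

/-!
# Galois CM fields with large conjugacy classes
-/

open scoped Classical
open Finset Polynomial

set_option linter.unusedSectionVars false
set_option linter.unusedVariables false

namespace Pool.Agent.Q271.CM

section abs

variable {K₁ K₂ : Type} [Field K₁] [NumberField K₁] [Field K₂] [NumberField K₂]
  [IsGalois ℚ K₁] [IsGalois ℚ K₂]

lemma exists_noncomm (ι : K₁ →+* K₂) {a : K₁} {w : K₂} (hw : w ^ 2 = ι a)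
    {x : K₁ ≃ₐ[ℚ] K₁} {y : K₂ ≃ₐ[ℚ] K₂} (hxy : ∀ z, ι (x z) = y (ι z))
    (hns : ∀ s : K₁, s ^ 2 ≠ a * x a) :
    ∃ v : K₂ ≃ₐ[ℚ] K₂, (∀ z, v (ι z) = ι z) ∧ v * y ≠ y * v := by
  by_contra hcon
  push Not at hcon
  let _ := ι.toAlgebra
  have hst : IsScalarTower ℚ K₁ K₂ := IsScalarTower.rat
  have hgal : IsGalois K₁ K₂ := IsGalois.tower_top_of_isGalois ℚ K₁ K₂
  have hfd : FiniteDimensional K₁ K₂ := FiniteDimensional.right ℚ K₁ K₂
  have hfix : ∀ f : K₂ ≃ₐ[K₁] K₂, f (w * y w) = w * y w := by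
    intro f
    have h1 : ∀ z, (f.restrictScalars ℚ) (ι z) = ι z := fun z => f.commutes z
    have h2 := hcon (f.restrictScalars ℚ) h1
    have h3 : f (y w) = y (f w) := DFunLike.congr_fun h2 w
    have h4 : (f w) ^ 2 = w ^ 2 := by
      rw [← map_pow, hw]
      exact h1 a
    rcases sq_eq_sq_iff_eq_or_eq_neg.1 h4 with h5 | h5
    · rw [map_mul, h3, h5]
    · rw [map_mul, h3, h5, map_neg, neg_mul_neg]
  obtain ⟨s, hs⟩ := (IsGalois.mem_range_algebraMap_iff_fixed (F := K₁) (E := K₂) (w * y w)).2 hfix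
  have hs' : ι s = w * y w := hs
  refine hns s (ι.injective ?_)
  rw [map_pow, hs', mul_pow, hw, ← map_pow, hw, map_mul, hxy]

end abs


section step

variable {K₁ : Type} [Field K₁] [NumberField K₁] [IsGalois ℚ K₁] {c₁ : K₁ ≃ₐ[ℚ] K₁}

lemma exists_totPos {θ : K₁} (hreal : ∀ φ : K₁ →+* ℂ, (φ θ).im = 0) :
    ∃ T₀ : ℕ, ∀ t, T₀ ≤ t → TotPos θ t := by
  obtain ⟨T₀, hT⟩ := exists_nat_gt (∑ φ : K₁ →+* ℂ, ‖φ θ‖)
  refine ⟨T₀, fun t ht φ => ⟨hreal φ, ?_⟩⟩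
  have h1 : ‖φ θ‖ ≤ ∑ φ : K₁ →+* ℂ, ‖φ θ‖ :=
    Finset.single_le_sum (f := fun φ : K₁ →+* ℂ => ‖φ θ‖) (fun _ _ => norm_nonneg _)
      (Finset.mem_univ φ)
  have h2 := Complex.abs_re_le_norm (φ θ)
  have h3 := neg_abs_le (φ θ).re
  have h4 : (T₀ : ℝ) ≤ t := by exact_mod_cast ht
  linarith

theorem step (hc : ∀ (φ : K₁ →+* ℂ) (x : K₁), φ (c₁ x) = starRingEnd ℂ (φ x)) (hc1 : c₁ ≠ 1) :
    ∃ (K₂ : Type) (_ : Field K₂) (_ : NumberField K₂) (_ : IsGalois ℚ K₂) (c₂ : K₂ ≃ₐ[ℚ] K₂)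
      (ι : K₁ →+* K₂), (∀ (φ : K₂ →+* ℂ) (x : K₂), φ (c₂ x) = starRingEnd ℂ (φ x)) ∧ c₂ ≠ 1 ∧
      ∀ (x : K₁ ≃ₐ[ℚ] K₁) (y : K₂ ≃ₐ[ℚ] K₂), (∀ z, ι (x z) = y (ι z)) → x ≠ 1 → x ≠ c₁ →
        ∃ v : K₂ ≃ₐ[ℚ] K₂, (∀ z, v (ι z) = ι z) ∧ v * y ≠ y * v := by
  obtain ⟨θ, hint, hcθ, hmov⟩ := exists_theta (c₁ := c₁) (c_sq hc)
  have hreal : ∀ φ : K₁ →+* ℂ, (φ θ).im = 0 := by
    intro φ
    have h1 := hc φ θ
    rw [hcθ] at h1
    exact Complex.conj_eq_iff_im.1 h1.symm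
  obtain ⟨T₀, hT₀⟩ := exists_totPos hreal
  obtain ⟨t, ht, hns⟩ := exists_nonsquare hint hreal (univ.filter fun x => x ≠ 1 ∧ x ≠ c₁)
    (fun x hx => hmov x (mem_filter.1 hx).2.1 (mem_filter.1 hx).2.2) T₀
  have hpos := hT₀ t ht
  obtain ⟨φ₀⟩ := (inferInstance : Nonempty (K₁ →+* ℂ))
  let j : K₁ →ₐ[ℚ] ℂ := φ₀.toRatAlgHom
  obtain ⟨hfd, hnor⟩ := bigF_facts j θ t
  obtain ⟨c₂, hc₂⟩ := exists_conj (bigF j θ t) hnor
  have hall := conj_all hc j hpos c₂ hc₂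
  have hsep : Algebra.IsSeparable ℚ (bigF j θ t) := inferInstance
  have hgal : IsGalois ℚ (bigF j θ t) := ⟨⟩
  have hNF : NumberField (bigF j θ t) := { to_charZero := inferInstance, to_finiteDimensional := hfd }
  refine ⟨bigF j θ t, inferInstance, hNF, hgal, c₂, iotaF j θ t, hall, ?_, ?_⟩
  · intro h
    apply hc1
    ext z
    apply φ₀.injective
    have h1 := hc₂ (iotaF j θ t z)
    rw [h] at h1
    have h2 : (φ₀ z) = starRingEnd ℂ (φ₀ z) := h1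
    rw [hc φ₀ z, ← h2]
    rfl
  · intro x y hxy hx1 hxc
    obtain ⟨w0, hw0⟩ := IsAlgClosed.exists_pow_nat_eq ((t : ℂ) + j θ) (n := 2) (by norm_num)
    have hw0F : w0 ∈ bigF j θ t :=
      (le_sup_right : IntermediateField.adjoin ℚ ((polyT θ t).rootSet ℂ) ≤ bigF j θ t)
        (IntermediateField.subset_adjoin _ _ (root_of_sq φ₀ hw0))
    refine exists_noncomm (iotaF j θ t) (a := (t : K₁) + θ) (w := ⟨w0, hw0F⟩) ?_ hxy ?_
    · apply Subtype.ext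
      rw [iotaF_coe]
      simp only [map_add, map_natCast]
      exact hw0
    · intro s hs
      refine hns x (by simp [hx1, hxc]) s ?_
      rw [hs, map_add, map_natCast]

end step


section iter

variable {K₁ : Type} [Field K₁] [NumberField K₁] [IsGalois ℚ K₁] {c₁ : K₁ ≃ₐ[ℚ] K₁}

lemma conj_comm {K : Type} [Field K] [NumberField K] {c : K ≃ₐ[ℚ] K}
    (hc₁ : ∀ (φ : K₁ →+* ℂ) (x : K₁), φ (c₁ x) = starRingEnd ℂ (φ x))
    (hc : ∀ (φ : K →+* ℂ) (x : K), φ (c x) = starRingEnd ℂ (φ x)) (ι : K₁ →+* K) (z : K₁) :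
    ι (c₁ z) = c (ι z) := by
  obtain ⟨φ⟩ := (inferInstance : Nonempty (K →+* ℂ))
  apply φ.injective
  rw [hc]
  exact hc₁ (φ.comp ι) z

/-- Galois CM fields in which all conjugacy classes not over `1` and `c` are large. -/
theorem exists_large (hc : ∀ (φ : K₁ →+* ℂ) (x : K₁), φ (c₁ x) = starRingEnd ℂ (φ x))
    (hc1 : c₁ ≠ 1) (t : ℕ) :
    ∃ (K : Type) (_ : Field K) (_ : NumberField K) (_ : IsGalois ℚ K) (c : K ≃ₐ[ℚ] K)
      (ι : K₁ →+* K), (∀ (φ : K →+* ℂ) (x : K), φ (c x) = starRingEnd ℂ (φ x)) ∧ c ≠ 1 ∧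
      ∀ y : K ≃ₐ[ℚ] K, ¬ (∀ z, y (ι z) = ι z) → ¬ (∀ z, y (ι z) = ι (c₁ z)) → 2 ^ t ≤ ncl y := by
  induction t with
  | zero =>
    exact ⟨K₁, inferInstance, inferInstance, inferInstance, c₁, RingHom.id K₁, hc, hc1,
      fun y _ _ => by rw [pow_zero]; exact ncl_pos y⟩
  | succ t ih =>
    obtain ⟨K, iF, iN, iG, c, ι, hcK, hc1K, hK⟩ := ih
    obtain ⟨K₂, jF, jN, jG, c₂, κ, hc₂, hc₂1, hs⟩ := step hcK hc1K
    refine ⟨K₂, jF, jN, jG, c₂, κ.comp ι, hc₂, hc₂1, fun y h1 h2 => ?_⟩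
    obtain ⟨π, hπ, hπ2⟩ := exists_res κ
    have h3 : ¬ (∀ z, (π y) (ι z) = ι z) := by
      intro h
      apply h1
      intro z
      have := hπ2 y (ι z)
      rw [h z] at this
      exact this.symm
    have h4 : ¬ (∀ z, (π y) (ι z) = ι (c₁ z)) := by
      intro h
      apply h2
      intro z
      have := hπ2 y (ι z)
      rw [h z] at this
      exact this.symm
    have h5 : π y ≠ 1 := by
      intro h
      apply h3
      intro z
      rw [h]; rfl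
    have h6 : π y ≠ c := by
      intro h
      apply h4
      intro z
      rw [h]
      exact (conj_comm hc hcK ι z).symm
    obtain ⟨v, hv, hvy⟩ := hs (π y) y (hπ2 y) h5 h6
    have h7 : π v = 1 := by
      ext z
      apply κ.injective
      rw [hπ2, hv]
      rfl
    have h8 := ncl_double π hπ h7 hvy
    have h9 := hK (π y) h3 h4
    rw [pow_succ]
    omega

/-- The conclusion remains true in all larger Galois fields. -/
theorem large_up {K K' : Type} [Field K] [NumberField K] [IsGalois ℚ K] [Field K'] [NumberField K']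
    [IsGalois ℚ K'] {ι : K₁ →+* K} {B : ℕ}
    (h : ∀ y : K ≃ₐ[ℚ] K, ¬ (∀ z, y (ι z) = ι z) → ¬ (∀ z, y (ι z) = ι (c₁ z)) → B ≤ ncl y)
    (κ : K →+* K') (y : K' ≃ₐ[ℚ] K') (h1 : ¬ (∀ z, y (κ (ι z)) = κ (ι z)))
    (h2 : ¬ (∀ z, y (κ (ι z)) = κ (ι (c₁ z)))) : B ≤ ncl y := by
  obtain ⟨π, hπ, hπ2⟩ := exists_res κ
  refine (h (π y) ?_ ?_).trans (ncl_map π hπ y)
  · intro h'
    apply h1
    intro z
    have := hπ2 y (ι z)
    rw [h' z] at this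
    exact this.symm
  · intro h'
    apply h2
    intro z
    have := hπ2 y (ι z)
    rw [h' z] at this
    exact this.symm

end iter

end Pool.Agent.Q271.CM
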