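import Pool.Agent.Q271.CM.Fld

/-!
# Sums over types are symmetric; the value of the functional at the identity
-/

open scoped Classical
open Finset

set_option linter.unusedSectionVars false
set_option linter.unusedVariables false

namespace Pool.Agent.Q271.CM

open Q264.CM

attribute [local instance] instAct

section

variable {G : Type*} [Group G] [Fintype G] {X : Type*} [Fintype X] [MulAction G X]

lemma NN_inv (x y : X) (g : G) : NN x y g⁻¹ = NN y x g := by
  unfold NN
  congr 1
  refine Nat.card_congr (Equiv.subtypeEquivRight fun η => ?_)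
  have h1 : η⁻¹ * g⁻¹ * η = (η⁻¹ * g * η)⁻¹ := by group
  rw [h1, inv_smul_eq_iff]
  exact eq_comm

lemma sum_aa_inv (Φ : Finset X) (g : G) :
    ∑ x ∈ Φ, aa x Φ g⁻¹ = ∑ x ∈ Φ, aa x Φ g := by
  rw [sum_aa_NN, sum_aa_NN]
  congr 1
  apply Finset.sum_congr rfl
  intro x _
  apply Finset.sum_congr rfl
  intro y _
  rw [NN_inv, NN_inv, add_comm]

end

section

variable {K : Type} [Field K] [NumberField K]
variable {c : K ≃ₐ[ℚ] K} (hc : ∀ (φ : K →+* ℂ) (x : K), φ (c x) = starRingEnd ℂ (φ x))
variable [IsGalois ℚ K]

/-- the point mass at `1` minus the point mass at `c` -/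
noncomputable def pt (c g : K ≃ₐ[ℚ] K) : ℚ := (if g = 1 then 1 else 0) - (if g = c then 1 else 0)

include hc in
lemma Ev_one_c (hc1 : c ≠ 1) {Z : ((K ≃ₐ[ℚ] K) → ℚ) →ₗ[ℚ] ℝ}
    (H : Heights c Z) (L : ((K ≃ₐ[ℚ] K) → ℚ) →ₗ[ℚ] ℝ)
    (hL : ∀ E : IntermediateField ℚ K, IsCMSub c E →
      ∀ Φ : Finset (Emb E), IsType c Φ → ∀ ψ : Emb E, H.ht E ψ Φ = L (a0 E ψ Φ)) :
    Ev (L - Z) 1 = Ev (L - Z) c := by
  have hc2 := c_sq hc
  have hcen := c_cen hc
  have hAA1 : ∀ g : K ≃ₐ[ℚ] K, AA 1 g = if g = 1 then 1 else 0 := by
    intro g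
    unfold AA
    have h1 : ∀ η : K ≃ₐ[ℚ] K, (η⁻¹ * g * η = 1) ↔ g = 1 := by
      intro η
      constructor
      · intro h
        have : g = η * (η⁻¹ * g * η) * η⁻¹ := by group
        rw [this, h]; group
      · rintro rfl; group
    simp_rw [h1]
    split_ifs
    · rw [Finset.sum_const, nsmul_eq_mul, mul_one, Finset.card_univ, ← Nat.card_eq_fintype_card,
        div_self card_ne]
    · simp
  have hAAc : ∀ g : K ≃ₐ[ℚ] K, AA c g = if g = c then 1 else 0 := by
    intro g
    unfold AA
    have h1 : ∀ η : K ≃ₐ[ℚ] K, (η⁻¹ * g * η = c) ↔ g = c := by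
      intro η
      constructor
      · intro h
        have : g = η * (η⁻¹ * g * η) * η⁻¹ := by group
        rw [this, h, ← hcen]; group
      · rintro rfl
        rw [mul_assoc, hcen, inv_mul_cancel_left]
    simp_rw [h1]
    split_ifs
    · rw [Finset.sum_const, nsmul_eq_mul, mul_one, Finset.card_univ, ← Nat.card_eq_fintype_card,
        div_self card_ne]
    · simp
  have h1 : L (pt c) = Z (pt c) := by
    refine forward_gen hc hc1 H L hL (pt c) ?_ 0 ?_ ?_
    · intro x g
      unfold pt
      have e1 : x * g * x⁻¹ = 1 ↔ g = 1 := by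
        constructor
        · intro h
          have : g = x⁻¹ * (x * g * x⁻¹) * x := by group
          rw [this, h]; group
        · rintro rfl; group
      have e2 : x * g * x⁻¹ = c ↔ g = c := by
        constructor
        · intro h
          have : g = x⁻¹ * (x * g * x⁻¹) * x := by group
          rw [this, h, mul_assoc, hcen, inv_mul_cancel_left]
        · rintro rfl
          rw [← hcen, mul_inv_cancel_right]
      simp only [e1, e2]
    · intro g
      unfold pt
      have e1 : c * g = 1 ↔ g = c := by
        constructor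
        · intro h
          have : g = c * (c * g) := by rw [← mul_assoc, hc2, one_mul]
          rw [this, h, mul_one]
        · rintro rfl; exact hc2
      have e2 : c * g = c ↔ g = 1 := by
        constructor
        · intro h
          exact mul_left_cancel (a := c) (by rw [h, mul_one])
        · rintro rfl; rw [mul_one]
      simp only [e1, e2]
      ring
    · apply Cond_of_pow
      intro k hk g
      have hodd := odd_of_coprime hc2 hc1 hk
      have hz := zpowers_pow_eq (g := g) hk
      unfold pt
      have e1 : g ^ k = 1 ↔ g = 1 := by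
        constructor
        · intro h
          rw [h, Subgroup.zpowers_one_eq_bot] at hz
          have : g ∈ (⊥ : Subgroup (K ≃ₐ[ℚ] K)) := by rw [hz]; exact Subgroup.mem_zpowers g
          exact Subgroup.mem_bot.1 this
        · rintro rfl; exact one_pow k
      have hck : c ^ k = c := by
        obtain ⟨m, rfl⟩ := hodd
        rw [pow_succ, pow_mul, pow_two, hc2, one_pow, one_mul]
      have e2 : g ^ k = c ↔ g = c := by
        constructor
        · intro h
          rw [h] at hz
          have h3 : g ∈ Subgroup.zpowers c := by rw [hz]; exact Subgroup.mem_zpowers g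
          rw [← mem_powers_iff_mem_zpowers] at h3
          obtain ⟨m, hm⟩ := h3
          simp only at hm
          rcases Nat.even_or_odd' m with ⟨j, rfl | rfl⟩
          · rw [pow_mul, pow_two, hc2, one_pow] at hm
            rw [← hm, one_pow] at h
            exact absurd h.symm hc1
          · rw [pow_succ, pow_mul, pow_two, hc2, one_pow, one_mul] at hm
            exact hm.symm
        · rintro rfl; exact hck
      simp only [e1, e2]
  have h2 : (pt c : (K ≃ₐ[ℚ] K) → ℚ) = AA 1 - AA c := by
    funext g
    rw [Pi.sub_apply, hAA1, hAAc]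
    rfl
  have h3 : (L - Z) (AA 1 - AA c) = 0 := by
    rw [← h2, LinearMap.sub_apply, h1, sub_self]
  rw [map_sub, sub_eq_zero] at h3
  exact h3

end

end Pool.Agent.Q271.CM
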