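import Pool.Agent.Q271.CM.Zo

/-!
# The zero-one law: fields
-/

open scoped Classical
open Finset

set_option linter.unusedSectionVars false
set_option linter.unusedVariables false

namespace Pool.Agent.Q271.CM

open Q264.CM

attribute [local instance] instAct

section

variable {K : Type} [Field K] [NumberField K] [IsGalois ℚ K]
variable {c : K ≃ₐ[ℚ] K} (hc : ∀ (φ : K →+* ℂ) (x : K), φ (c x) = starRingEnd ℂ (φ x))

include hc in
lemma ind_zero (hc1 : c ≠ 1) {Z : ((K ≃ₐ[ℚ] K) → ℚ) →ₗ[ℚ] ℝ}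
    (H : Heights c Z) (L : ((K ≃ₐ[ℚ] K) → ℚ) →ₗ[ℚ] ℝ)
    (hL : ∀ E : IntermediateField ℚ K, IsCMSub c E →
      ∀ Φ : Finset (Emb E), IsType c Φ → ∀ ψ : Emb E, H.ht E ψ Φ = L (a0 E ψ Φ))
    (N : Subgroup (K ≃ₐ[ℚ] K)) [hN : N.Normal] : (L - Z) (ind N c) = 0 := by
  have hc2 := c_sq hc
  have hcen := c_cen hc
  have h0 : ∀ g, c * (c * g) = g := fun g => by rw [← mul_assoc, hc2, one_mul]
  have h1 : L (ind N c) = Z (ind N c) := by
    refine forward_gen hc hc1 H L hL (ind N c) ?_ 0 ?_ ?_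
    · intro x g
      unfold ind
      have e1 : ∀ g : K ≃ₐ[ℚ] K, (x * g * x⁻¹ ∈ N) ↔ g ∈ N := by
        intro g
        constructor
        · intro h
          have := hN.conj_mem _ h x⁻¹
          rwa [show x⁻¹ * (x * g * x⁻¹) * x⁻¹⁻¹ = g by group] at this
        · exact fun h => hN.conj_mem _ h x
      have e2 : c * (x * g * x⁻¹) = x * (c * g) * x⁻¹ := by
        rw [← mul_assoc, ← mul_assoc, hcen x, mul_assoc x c g]
      rw [e2]
      simp only [e1]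
    · intro g
      unfold ind
      rw [h0]; ring
    · apply Cond_of_pow
      intro k hk g
      have hodd := odd_of_coprime hc2 hc1 hk
      have hz : ∀ g : K ≃ₐ[ℚ] K, (g ^ k ∈ N ↔ g ∈ N) := by
        intro g
        have := zpowers_pow_eq (g := g) hk
        rw [← Subgroup.zpowers_le, this, Subgroup.zpowers_le]
      have hck : c ^ k = c := by
        obtain ⟨m, rfl⟩ := hodd
        rw [pow_succ, pow_mul, pow_two, hc2, one_pow, one_mul]
      have e2 : c * g ^ k = (c * g) ^ k := by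
        have h2 : Commute c g := hcen g
        rw [h2.mul_pow, hck]
      unfold ind
      rw [e2]
      simp only [hz]
  rw [LinearMap.sub_apply, h1, sub_self]

lemma aa_congr {G X : Type*} [Group G] [Fintype G] [Fintype X] [MulAction G X] {x : X} {Φ : Finset X} {g h : G}
    (H : ∀ η : G, (η⁻¹ * g * η) • x = (η⁻¹ * h * η) • x) : aa x Φ g = aa x Φ h := by
  rw [aa_eq, aa_eq]
  congr 1
  apply Finset.sum_congr rfl
  intro η _
  rw [H η]

end

section law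

variable {K₁ K K' : Type} [Field K₁] [NumberField K₁] [IsGalois ℚ K₁]
  [Field K] [NumberField K] [IsGalois ℚ K] [Field K'] [NumberField K'] [IsGalois ℚ K']
variable {c₁ : K₁ ≃ₐ[ℚ] K₁} {c : K ≃ₐ[ℚ] K} {c' : K' ≃ₐ[ℚ] K'}

theorem law (hc₁ : ∀ (φ : K₁ →+* ℂ) (x : K₁), φ (c₁ x) = starRingEnd ℂ (φ x))
    (hc : ∀ (φ : K →+* ℂ) (x : K), φ (c x) = starRingEnd ℂ (φ x))
    (hc' : ∀ (φ : K' →+* ℂ) (x : K'), φ (c' x) = starRingEnd ℂ (φ x)) (hc'1 : c' ≠ 1)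
    (ι : K₁ →+* K) (κ : K →+* K') {B : ℕ}
    (hB : ∀ y : K ≃ₐ[ℚ] K, ¬ (∀ z, y (ι z) = ι z) → ¬ (∀ z, y (ι z) = ι (c₁ z)) → B ≤ ncl y)
    {Z : ((K' ≃ₐ[ℚ] K') → ℚ) →ₗ[ℚ] ℝ} (H : Heights c' Z)
    {E : IntermediateField ℚ K'} (hE : ∀ x ∈ E, ∃ z : K₁, κ (ι z) = x) (hEc : IsCMSub c' E)
    {Φ : Finset (Emb E)} (hΦ : IsType c' Φ) {ψ : Emb E} (hne : H.ht E ψ Φ ≠ Z (a0 E ψ Φ))
    (F : IntermediateField ℚ K') (hF : ∀ z : K, κ z ∈ F) (φ : Emb F) :
    (#{Ψ : Finset (Emb F) | IsType c' Ψ ∧ H.ht F φ Ψ = Z (a0 F φ Ψ)} : ℝ) ≤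
      #{Ψ : Finset (Emb F) | IsType c' Ψ} / Real.sqrt (B + 1) := by
  obtain ⟨L, hL⟩ := H.linear
  have hc2 := c_sq hc'
  have hcen := c_cen hc'
  have hD1 := D_one hc' hc'1 H L hL
  obtain ⟨π, hπ, hπ2⟩ := exists_res κ
  obtain ⟨π₁, hπ₁, hπ₁2⟩ := exists_res ι
  have hπc : π c' = c := by
    ext z
    apply κ.injective
    rw [hπ2]
    exact (conj_comm hc hc' κ z).symm
  have hker : ∀ y : K ≃ₐ[ℚ] K, y ∈ π₁.ker ↔ ∀ z, y (ι z) = ι z := by
    intro y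
    rw [MonoidHom.mem_ker]
    constructor
    · intro h z
      rw [← hπ₁2, h]; rfl
    · intro h
      ext z
      apply ι.injective
      rw [hπ₁2, h]; rfl
  have hcN : π c' ∉ π₁.ker := by
    rw [hker]
    intro h
    obtain ⟨x, hx, hx2⟩ := hEc
    obtain ⟨z, rfl⟩ := hE x hx
    apply hx2
    rw [← hπ2, h z]
  -- the embeddings of `E`
  have hψ : ∀ (y : K' ≃ₐ[ℚ] K') (x : E), ∃ z : K₁, (y • ψ) x = κ (ι z) := by
    intro y x
    obtain ⟨g, hg⟩ := exists_ext ψ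
    obtain ⟨z, hz⟩ := hE x x.2
    refine ⟨π₁ (π (y * g)) z, ?_⟩
    rw [hπ₁2, hπ2, hz, ← hg, smul_smul]
    rfl
  have hact : ∀ y y' : K' ≃ₐ[ℚ] K', (∀ z, π y (ι z) = π y' (ι z)) → y • ψ = y' • ψ := by
    intro y y' h
    apply AlgHom.ext
    intro x
    obtain ⟨z, hz⟩ := hψ 1 x
    rw [one_smul] at hz
    have h1 : ∀ u : K' ≃ₐ[ℚ] K', (u • ψ) x = u (ψ x) := fun u => rfl
    rw [h1, h1, hz, ← hπ2, ← hπ2, h z]
  -- the class function
  obtain ⟨b, hb1, hb2, hb3⟩ := exists_dK (π := π) hc2 (N := π₁.ker) hcN hD1 hcen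
    (ind_zero hc' hc'1 H L hL _) (a0 E ψ Φ)
    (fun x g => Q264.CM.aa_conj (G := K' ≃ₐ[ℚ] K') ψ Φ x g) (1 / 2)
    (fun g => by
      have := Q264.CM.aa_add_c hc2 hcen hΦ ψ g
      rw [show a0 E ψ Φ g + a0 E ψ Φ (c' * g) = 1 from this]
      norm_num)
    (fun g h hgh => by
      refine aa_congr (G := K' ≃ₐ[ℚ] K') (x := ψ) (Φ := Φ) fun η => hact _ _ fun z => ?_
      rw [map_mul, map_mul, map_mul, map_mul, hgh])
    (fun g hg => by
      refine aa_congr (G := K' ≃ₐ[ℚ] K') (x := ψ) (Φ := Φ) fun η => hact _ _ fun z => ?_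
      have h1 : π (η⁻¹ * g * η) ∈ π₁.ker := by
        have := (inferInstance : π₁.ker.Normal).conj_mem _ hg (π η⁻¹)
        rw [map_mul, map_mul]
        rwa [map_inv, inv_inv, ← map_inv] at this
      rw [(hker _).1 h1 z, mul_one, inv_mul_cancel, map_one]
      rfl)
    (by
      rw [LinearMap.sub_apply, ← hL E hEc Φ hΦ ψ]
      exact sub_ne_zero.2 hne)
  set D := L - Z with hD
  have hdd : ∀ g, dd (Ev D) c' (c' * g) = - dd (Ev D) c' g := by
    intro g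
    unfold dd
    rw [← mul_assoc, hc2, one_mul]; ring
  -- a conjugacy class with positive sums
  obtain ⟨b₀, hb₀, hb₀B⟩ : ∃ b₀, 0 < dK π (dd (Ev D) c') b₀ ∧ B ≤ ncl b₀ := by
    have hbB : ∀ b : K ≃ₐ[ℚ] K, b ∉ π₁.ker → π c' * b ∉ π₁.ker → B ≤ ncl b := by
      intro b h1 h2
      apply hB b
      · rwa [hker] at h1
      · intro h
        apply h2
        rw [hker]
        intro z
        show π c' (b (ι z)) = ι z
        rw [h z, hπc, ← conj_comm hc₁ hc ι]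
        have h3 : c₁ * c₁ = 1 := c_sq hc₁
        have h4 : c₁ (c₁ z) = z := DFunLike.congr_fun h3 z
        rw [h4]
    have hcc : π c' * (π c' * b) = b := by
      rw [← mul_assoc, ← map_mul, hc2, map_one, one_mul]
    rcases lt_or_gt_of_ne hb3 with h | h
    · refine ⟨π c' * b, ?_, hbB _ hb2 (by rwa [hcc])⟩
      rw [dK_c hc2 hdd]
      linarith
    · exact ⟨b, h, hbB b hb1 hb2⟩
  have hst : ∀ g : K' ≃ₐ[ℚ] K', g • φ = φ → π g = 1 := by
    intro g hg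
    ext z
    -- the image of `φ` contains `κ z`
    obtain ⟨g₀, hg₀⟩ := exists_ext φ
    have h1 : κ z = φ ⟨κ ((π g₀)⁻¹ z), hF _⟩ := by
      rw [← hg₀]
      show κ z = g₀ (κ ((π g₀)⁻¹ z))
      rw [← hπ2]
      congr 1
      show z = (π g₀ * (π g₀)⁻¹) z
      rw [mul_inv_cancel]; rfl
    apply κ.injective
    show κ (π g z) = κ z
    rw [hπ2, h1]
    exact DFunLike.congr_fun hg _
  have hpos := card_pos hπ hst (dd_conj hcen D) hb₀
  have hdd0 : ∑ g, Ev D g = 0 := sum_Ev D hD1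
  have hcount := prop_zero (G := Emb F) (c := fun η => c' • η)
    (fun η => by rw [smul_smul, hc2, one_smul]) (e := eX φ (dd (Ev D) c'))
    (fun η => eX_c hc2 hcen hdd φ η) (hb₀B.trans hpos)
  have hFc : IsCMSub c' F := by
    obtain ⟨x, hx, hx2⟩ := hEc
    obtain ⟨z, rfl⟩ := hE x hx
    exact ⟨_, hF _, hx2⟩
  have htps : tps (fun η : Emb F => c' • η) = univ.filter fun Ψ : Finset (Emb F) => IsType c' Ψ := by
    ext Ψ
    rw [mem_tps, mem_filter]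
    exact ⟨fun h => ⟨mem_univ _, h⟩, fun h => h.2⟩
  rw [htps] at hcount
  refine le_trans ?_ hcount
  have h1 : (univ.filter fun Ψ : Finset (Emb F) => IsType c' Ψ ∧ H.ht F φ Ψ = Z (a0 F φ Ψ)) ⊆
      (univ.filter fun Ψ : Finset (Emb F) => IsType c' Ψ).filter fun Ψ =>
        ∑ η ∈ Ψ, eX φ (dd (Ev D) c') η = 0 := by
    intro Ψ hΨ
    rw [mem_filter] at hΨ
    obtain ⟨-, hΨ1, hΨ2⟩ := hΨ
    rw [mem_filter, mem_filter]
    refine ⟨⟨mem_univ _, hΨ1⟩, ?_⟩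
    rw [sum_eX hc2 hdd0 hΨ1]
    have h2 := aa_AA (G := K' ≃ₐ[ℚ] K') φ 1 Ψ
    rw [one_smul] at h2
    simp only [inv_one, mul_one] at h2
    have h3 : D (a0 F φ Ψ) = 0 := by
      rw [hD, LinearMap.sub_apply, ← hL F hFc Ψ hΨ1 φ, hΨ2, sub_self]
    rw [show a0 F φ Ψ = (aa φ Ψ : (K' ≃ₐ[ℚ] K') → ℚ) from rfl, h2, map_sum] at h3
    have h4 : ∑ g ∈ univ.filter (fun g : K' ≃ₐ[ℚ] K' => g • φ ∈ Ψ), Ev D g = 0 := h3
    rw [h4, mul_zero]
  exact_mod_cast Finset.card_le_card h1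

end law

end Pool.Agent.Q271.CM
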