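import Pool.Agent.Q271.CM.Cnt
import Pool.Agent.Q271.CM.Step
import Pool.Agent.Q271.CM.Sym

/-!
# The zero-one law: group theory and counting
-/

open scoped Classical
open Finset

set_option linter.unusedSectionVars false
set_option linter.unusedVariables false

namespace Pool.Agent.Q271.CM

open Q264.CM

section grp

variable {G G₁ : Type*} [Group G] [Fintype G] [Group G₁] [Fintype G₁]

/-- The indicator function of `N` minus the one of `c N`. -/
noncomputable def ind (N : Subgroup G) (c g : G) : ℚ :=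
  (if g ∈ N then 1 else 0) - (if c * g ∈ N then 1 else 0)

/-- The sum over the fibre. -/
noncomputable def dK (π : G →* G₁) (e : G → ℝ) (b : G₁) : ℝ :=
  ∑ g ∈ univ.filter (fun g => π g = b), e g

lemma dd_conj {c : G} (hcen : ∀ g, c * g = g * c) (D : (G → ℚ) →ₗ[ℚ] ℝ) (y g : G) :
    dd (Ev D) c (y * g * y⁻¹) = dd (Ev D) c g := by
  unfold dd Ev
  have h1 : c * (y * g * y⁻¹) = y * (c * g) * y⁻¹ := by
    rw [← mul_assoc, ← mul_assoc, hcen y, mul_assoc y c g]
  rw [h1, AA_conj, AA_conj]

lemma dK_conj {π : G →* G₁} (hπ : Function.Surjective π) {e : G → ℝ}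
    (he : ∀ y g, e (y * g * y⁻¹) = e g) (x b : G₁) : dK π e (x * b * x⁻¹) = dK π e b := by
  obtain ⟨y, rfl⟩ := hπ x
  unfold dK
  symm
  refine Finset.sum_bij' (fun g _ => y * g * y⁻¹) (fun g _ => y⁻¹ * g * y) ?_ ?_ ?_ ?_ ?_
  · intro g hg
    simp only [mem_filter, mem_univ, true_and] at hg ⊢
    rw [map_mul, map_mul, map_inv, hg]
  · intro g hg
    simp only [mem_filter, mem_univ, true_and] at hg ⊢
    rw [map_mul, map_mul, map_inv, hg]; group
  · intro g _; group
  · intro g _; group
  · intro g _; exact (he y g).symm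

lemma dK_c {π : G →* G₁} {c : G} (hc2 : c * c = 1) {e : G → ℝ} (he : ∀ g, e (c * g) = - e g)
    (b : G₁) : dK π e (π c * b) = - dK π e b := by
  unfold dK
  rw [← Finset.sum_neg_distrib]
  symm
  have h0 : ∀ g, c * (c * g) = g := fun g => by rw [← mul_assoc, hc2, one_mul]
  refine Finset.sum_bij' (fun g _ => c * g) (fun g _ => c * g) ?_ ?_ ?_ ?_ ?_
  · intro g hg
    simp only [mem_filter, mem_univ, true_and] at hg ⊢
    rw [map_mul, hg]
  · intro g hg
    simp only [mem_filter, mem_univ, true_and] at hg ⊢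
    rw [map_mul, hg, ← mul_assoc, ← map_mul, hc2, map_one, one_mul]
  · intro g _; exact h0 g
  · intro g _; exact h0 g
  · intro g _; exact (he g).symm

/-- A class function at which the functional does not vanish. -/
theorem exists_dK {c : G} (hc2 : c * c = 1) {π : G →* G₁} {N : Subgroup G₁} (hcN : π c ∉ N)
    {D : (G → ℚ) →ₗ[ℚ] ℝ} (h1 : D 1 = 0) (hcen : ∀ g, c * g = g * c) [N.Normal]
    (hind : D (ind (N.comap π) c) = 0) (f : G → ℚ) (hf : ∀ x g, f (x * g * x⁻¹) = f g) (κ : ℚ)
    (hκ : ∀ g, f g + f (c * g) = 2 * κ) (hfπ : ∀ g h, π g = π h → f g = f h)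
    (hfN : ∀ g, π g ∈ N → f g = f 1) (hD : D f ≠ 0) :
    ∃ b : G₁, b ∉ N ∧ π c * b ∉ N ∧ dK π (dd (Ev D) c) b ≠ 0 := by
  by_contra hcon
  push Not at hcon
  apply hD
  have hindcl : ∀ x g, ind (N.comap π) c (x * g * x⁻¹) = ind (N.comap π) c g := by
    intro x g
    unfold ind
    have e1 : ∀ g : G, (x * g * x⁻¹ ∈ N.comap π) ↔ g ∈ N.comap π := by
      intro g
      constructor
      · intro h
        have := (inferInstance : (N.comap π).Normal).conj_mem _ h x⁻¹
        rwa [show x⁻¹ * (x * g * x⁻¹) * x⁻¹⁻¹ = g by group] at this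
      · exact fun h => (inferInstance : (N.comap π).Normal).conj_mem _ h x
    have e2 : c * (x * g * x⁻¹) = x * (c * g) * x⁻¹ := by
      rw [← mul_assoc, ← mul_assoc, hcen x, mul_assoc x c g]
    rw [e2]
    simp only [e1]
  have h0 : ∀ g, c * (c * g) = g := fun g => by rw [← mul_assoc, hc2, one_mul]
  have e1 := D_odd D hc2 h1 f hf κ hκ
  have e2 := D_odd D hc2 h1 (ind (N.comap π) c) hindcl 0 (by
    intro g
    unfold ind
    rw [h0]; ring)
  rw [hind] at e2
  set a : G → ℝ := fun u => ((f u - κ : ℚ) : ℝ) - ((f 1 - κ : ℚ) : ℝ) * ((ind (N.comap π) c u - 0 : ℚ) : ℝ)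
    with ha
  have e3 : D f = ∑ u : G, a u * dd (Ev D) c u / 2 := by
    have : ∑ u : G, a u * dd (Ev D) c u / 2 =
        ∑ u : G, ((f u - κ : ℚ) : ℝ) * (Ev D u - Ev D (c * u)) / 2 -
        ((f 1 - κ : ℚ) : ℝ) * ∑ u : G, ((ind (N.comap π) c u - 0 : ℚ) : ℝ) *
          (Ev D u - Ev D (c * u)) / 2 := by
      rw [Finset.mul_sum, ← Finset.sum_sub_distrib]
      apply Finset.sum_congr rfl
      intro u _
      rw [ha]
      simp only [dd]
      ring
    rw [this, ← e1, ← e2, mul_zero, sub_zero]
  rw [e3, ← Finset.sum_fiberwise (s := (univ : Finset G)) (g := π)]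
  apply Finset.sum_eq_zero
  intro b _
  by_cases hb : b ∈ N
  · apply Finset.sum_eq_zero
    intro u hu
    have hu' : π u = b := (mem_filter.1 hu).2
    have h2 : u ∈ N.comap π := by rw [Subgroup.mem_comap, hu']; exact hb
    have h3 : c * u ∉ N.comap π := by
      rw [Subgroup.mem_comap, map_mul]
      intro h
      exact hcN ((Subgroup.mul_mem_cancel_right N (by rw [hu']; exact hb)).1 h)
    have h4 : a u = 0 := by
      rw [ha]
      simp only [ind, h2, h3, if_true, if_false]
      rw [hfN u (by rw [hu']; exact hb)]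
      push_cast; ring
    rw [h4, zero_mul, zero_div]
  · by_cases hb' : π c * b ∈ N
    · apply Finset.sum_eq_zero
      intro u hu
      have hu' : π u = b := (mem_filter.1 hu).2
      have h2 : u ∉ N.comap π := by rw [Subgroup.mem_comap, hu']; exact hb
      have h3 : c * u ∈ N.comap π := by
        rw [Subgroup.mem_comap, map_mul, hu']
        exact hb'
      have h5 : f u - κ = -(f 1 - κ) := by
        have := hκ u
        rw [hfN (c * u) (by rw [map_mul, hu']; exact hb')] at this
        linarith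
      have h4 : a u = 0 := by
        rw [ha]
        simp only [ind, h2, h3, if_true, if_false]
        rw [h5]
        push_cast; ring
      rw [h4, zero_mul, zero_div]
    · have h2 := hcon b hb hb'
      unfold dK at h2
      rcases (univ.filter fun u => π u = b).eq_empty_or_nonempty with h3 | ⟨u₀, hu₀⟩
      · rw [h3, Finset.sum_empty]
      · have h4 : ∀ u ∈ univ.filter (fun u => π u = b), a u * dd (Ev D) c u / 2 =
            (f u₀ - κ : ℚ) / 2 * dd (Ev D) c u := by
          intro u hu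
          have hu' : π u = b := (mem_filter.1 hu).2
          have hu₀' : π u₀ = b := (mem_filter.1 hu₀).2
          have h5 : u ∉ N.comap π := by rw [Subgroup.mem_comap, hu']; exact hb
          have h6 : c * u ∉ N.comap π := by
            rw [Subgroup.mem_comap, map_mul, hu']
            exact hb'
          rw [ha]
          simp only [ind, h5, h6, if_false]
          rw [hfπ u u₀ (hu'.trans hu₀'.symm)]
          push_cast; ring
        rw [Finset.sum_congr rfl h4, ← Finset.mul_sum, h2, mul_zero]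

end grp

section emb

variable {G G₁ X : Type*} [Group G] [Fintype G] [Group G₁] [Fintype G₁] [Fintype X] [MulAction G X]

/-- The function on the embeddings. -/
noncomputable def eX (ψ : X) (e : G → ℝ) (η : X) : ℝ :=
  ∑ g ∈ univ.filter (fun g : G => g • ψ = η), e g

lemma exists_pos_emb {π : G →* G₁} {ψ : X} (hst : ∀ g : G, g • ψ = ψ → π g = 1) {e : G → ℝ}
    {b : G₁} (hb : 0 < dK π e b) : ∃ g : G, π g = b ∧ 0 < eX ψ e (g • ψ) := by
  by_contra hcon
  push Not at hcon
  have hst' : ∀ g h : G, g • ψ = h • ψ → π g = π h := by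
    intro g h hgh
    have h1 : (h⁻¹ * g) • ψ = ψ := by rw [mul_smul, hgh, inv_smul_smul]
    have h2 := hst _ h1
    rw [map_mul, map_inv, inv_mul_eq_one] at h2
    exact h2.symm
  have h1 : dK π e b ≤ 0 := by
    unfold dK
    rw [← Finset.sum_fiberwise (s := univ.filter fun g => π g = b) (g := fun g : G => g • ψ)]
    apply Finset.sum_nonpos
    intro η _
    rcases ((univ.filter fun g => π g = b).filter fun g : G => g • ψ = η).eq_empty_or_nonempty with
      h3 | ⟨g₀, hg₀⟩
    · rw [h3, Finset.sum_empty]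
    · simp only [mem_filter, mem_univ, true_and] at hg₀
      have h4 := hcon g₀ hg₀.1
      rw [hg₀.2] at h4
      unfold eX at h4
      refine le_trans (le_of_eq ?_) h4
      apply Finset.sum_congr _ (fun _ _ => rfl)
      ext g
      simp only [mem_filter, mem_univ, true_and]
      constructor
      · exact fun h => h.2
      · intro h
        refine ⟨?_, h⟩
        rw [hst' g g₀ (h.trans hg₀.2.symm)]
        exact hg₀.1
  linarith

theorem card_pos {π : G →* G₁} (hπ : Function.Surjective π) {ψ : X}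
    (hst : ∀ g : G, g • ψ = ψ → π g = 1) {e : G → ℝ} (he : ∀ y g, e (y * g * y⁻¹) = e g)
    {b₀ : G₁} (hb₀ : 0 < dK π e b₀) : ncl b₀ ≤ Fintype.card (Pos (eX ψ e)) := by
  have hst' : ∀ g h : G, g • ψ = h • ψ → π g = π h := by
    intro g h hgh
    have h1 : (h⁻¹ * g) • ψ = ψ := by rw [mul_smul, hgh, inv_smul_smul]
    have h2 := hst _ h1
    rw [map_mul, map_inv, inv_mul_eq_one] at h2
    exact h2.symm
  have h1 : ∀ b : {b : G₁ // IsConj b₀ b}, ∃ g : G, π g = b.1 ∧ 0 < eX ψ e (g • ψ) := by
    rintro ⟨b, hb⟩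
    obtain ⟨x, rfl⟩ := isConj_iff.1 hb
    apply exists_pos_emb hst
    rw [dK_conj hπ he]
    exact hb₀
  choose s hs hs' using h1
  unfold ncl
  rw [← Nat.card_eq_fintype_card]
  refine Nat.card_le_card_of_injective (fun b => (⟨s b • ψ, hs' b⟩ : Pos (eX ψ e))) ?_
  intro b b' h
  have h2 : s b • ψ = s b' • ψ := congrArg Subtype.val h
  apply Subtype.ext
  rw [← hs b, ← hs b', hst' _ _ h2]

lemma eX_c {c : G} (hc2 : c * c = 1) (hcen : ∀ g, c * g = g * c) {e : G → ℝ}
    (he : ∀ g, e (c * g) = - e g) (ψ η : X) : eX ψ e (c • η) = - eX ψ e η := by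
  unfold eX
  rw [← Finset.sum_neg_distrib]
  symm
  have h0 : ∀ g, c * (c * g) = g := fun g => by rw [← mul_assoc, hc2, one_mul]
  refine Finset.sum_bij' (fun g _ => c * g) (fun g _ => c * g) ?_ ?_ ?_ ?_ ?_
  · intro g hg
    simp only [mem_filter, mem_univ, true_and] at hg ⊢
    rw [mul_smul, hg]
  · intro g hg
    simp only [mem_filter, mem_univ, true_and] at hg ⊢
    rw [mul_smul, hg, smul_smul, hc2, one_smul]
  · intro g _; exact h0 g
  · intro g _; exact h0 g
  · intro g _; exact (he g).symm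

/-- The sum over a type. -/
lemma sum_eX {c : G} (hc2 : c * c = 1) {E : G → ℝ} (hE : ∑ g : G, E g = 0) {ψ : X}
    {Φ : Finset X} (hΦ : ∀ η, η ∈ Φ ↔ c • η ∉ Φ) :
    ∑ η ∈ Φ, eX ψ (dd E c) η = 2 * ∑ g ∈ univ.filter (fun g : G => g • ψ ∈ Φ), E g := by
  have h0 : ∀ g, c * (c * g) = g := fun g => by rw [← mul_assoc, hc2, one_mul]
  have h1 : ∑ η ∈ Φ, eX ψ (dd E c) η = ∑ g ∈ univ.filter (fun g : G => g • ψ ∈ Φ), dd E c g := by
    unfold eX
    have h2 := Finset.sum_fiberwise_of_maps_to (s := univ.filter (fun g : G => g • ψ ∈ Φ)) (t := Φ)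
      (g := fun g : G => g • ψ) (fun g hg => (mem_filter.1 hg).2) (dd E c)
    rw [← h2]
    apply Finset.sum_congr rfl
    intro η hη
    apply Finset.sum_congr _ (fun _ _ => rfl)
    ext g
    simp only [mem_filter, mem_univ, true_and]
    constructor
    · rintro rfl; exact ⟨hη, rfl⟩
    · exact fun h => h.2
  rw [h1]
  unfold dd
  rw [Finset.sum_sub_distrib]
  have h3 : ∑ g ∈ univ.filter (fun g : G => g • ψ ∈ Φ), E (c * g) =
      ∑ g ∈ univ.filter (fun g : G => ¬ g • ψ ∈ Φ), E g := by
    refine Finset.sum_bij' (fun g _ => c * g) (fun g _ => c * g) ?_ ?_ ?_ ?_ ?_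
    · intro g hg
      simp only [mem_filter, mem_univ, true_and] at hg ⊢
      rw [mul_smul]
      exact (hΦ _).1 hg
    · intro g hg
      simp only [mem_filter, mem_univ, true_and] at hg ⊢
      rw [mul_smul]
      by_contra h
      exact hg ((hΦ _).2 h)
    · intro g _; exact h0 g
    · intro g _; exact h0 g
    · intro g _; rfl
  have h4 := Finset.sum_filter_add_sum_filter_not univ (fun g : G => g • ψ ∈ Φ) E
  rw [hE] at h4
  rw [h3]
  linarith

end emb

end Pool.Agent.Q271.CM
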